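import Pool.Agent.Q321.MM.Red

/-!
# From far-apart paths to assignments
-/

namespace Pool.Agent.Q321.MM

open Pool.Agent.NPC Pool.Agent.NPC.H634R2

section Nbrs

variable {φ : Φ}

/-- Neighbours in the base graph. -/
def Nb (φ : Φ) (x y : ℕ) : Prop := (x, y) ∈ L φ ∨ (y, x) ∈ L φ

theorem nb_iff {x y : ℕ} : Nb φ x y ↔
    (∃ i < 3 * φ.length, ((x, y) ∈ varE i ∨ (y, x) ∈ varE i)) ∨
    ∃ z ∈ lits φ, ((x, y) ∈ litE (3 * φ.length) z ∨ (y, x) ∈ litE (3 * φ.length) z) := by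
  unfold Nb
  rw [mem_L, mem_L]
  constructor
  · rintro ((⟨i, hi, h⟩ | ⟨z, hz, h⟩) | (⟨i, hi, h⟩ | ⟨z, hz, h⟩))
    · exact Or.inl ⟨i, hi, Or.inl h⟩
    · exact Or.inr ⟨z, hz, Or.inl h⟩
    · exact Or.inl ⟨i, hi, Or.inr h⟩
    · exact Or.inr ⟨z, hz, Or.inr h⟩
  · rintro (⟨i, hi, h | h⟩ | ⟨z, hz, h | h⟩)
    · exact Or.inl (Or.inl ⟨i, hi, h⟩)
    · exact Or.inr (Or.inl ⟨i, hi, h⟩)
    · exact Or.inl (Or.inr ⟨z, hz, h⟩)
    · exact Or.inr (Or.inr ⟨z, hz, h⟩)

theorem nb_symm {x y : ℕ} (h : Nb φ x y) : Nb φ y x := h.symm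

/-- The neighbours of `8 k`. -/
theorem nb_g {k y : ℕ} (h : Nb φ (8 * k) y) :
    (k < 3 * φ.length ∧ ∃ c, y = ch c k) ∨
    (∃ j < 3 * φ.length, k = j + 1 ∧ ∃ c, y = ch c j) ∨
    ∃ z ∈ lits φ, y = 8 * z.2 + 6 ∧ (k = 3 * φ.length + z.2 / 3 ∨ k = 3 * φ.length + z.2 / 3 + 1) := by
  rcases nb_iff.1 h with ⟨i, hi, h⟩ | ⟨z, hz, h⟩
  · simp only [varE, List.mem_cons, List.not_mem_nil, or_false, Prod.mk.injEq] at h
    rcases h with h | h
    · rcases h with h | h | h | h | h | h | h | h | h | h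
      · exact Or.inl ⟨by omega, true, by simp [ch]; omega⟩
      · exact Or.inl ⟨by omega, false, by simp [ch]; omega⟩
      all_goals (exfalso; omega)
    · rcases h with h | h | h | h | h | h | h | h | h | h
      · omega
      · omega
      · exact Or.inr (Or.inl ⟨i, hi, by omega, true, by simp [ch]; omega⟩)
      · exact Or.inr (Or.inl ⟨i, hi, by omega, false, by simp [ch]; omega⟩)
      all_goals (exfalso; omega)
  · have h1 := (ch_mod (!z.1.1) z.1.2).1
    have h2 := (ch'_mod (!z.1.1) z.1.2).1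
    simp only [litE, List.mem_cons, List.not_mem_nil, or_false, Prod.mk.injEq] at h
    refine Or.inr (Or.inr ⟨z, hz, ?_, ?_⟩) <;> omega

/-- The neighbours of `8 k + 3`. -/
theorem nb_g' {k y : ℕ} (h : Nb φ (8 * k + 3) y) :
    (k < 3 * φ.length ∧ ∃ c, y = ch' c k) ∨
    (∃ j < 3 * φ.length, k = j + 1 ∧ ∃ c, y = ch' c j) := by
  rcases nb_iff.1 h with ⟨i, hi, h⟩ | ⟨z, hz, h⟩
  · simp only [varE, List.mem_cons, List.not_mem_nil, or_false, Prod.mk.injEq] at h
    rcases h with h | h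
    · rcases h with h | h | h | h | h | h | h | h | h | h
      iterate 4 (exfalso; omega)
      · exact Or.inl ⟨by omega, true, by simp [ch']; omega⟩
      · exact Or.inl ⟨by omega, false, by simp [ch']; omega⟩
      all_goals (exfalso; omega)
    · rcases h with h | h | h | h | h | h | h | h | h | h
      iterate 6 (exfalso; omega)
      · exact Or.inr ⟨i, hi, by omega, true, by simp [ch']; omega⟩
      · exact Or.inr ⟨i, hi, by omega, false, by simp [ch']; omega⟩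
      all_goals (exfalso; omega)
  · have h1 := (ch_mod (!z.1.1) z.1.2).1
    have h2 := (ch'_mod (!z.1.1) z.1.2).1
    simp only [litE, List.mem_cons, List.not_mem_nil, or_false, Prod.mk.injEq] at h
    omega

/-- The neighbours of `ch b k`. -/
theorem nb_ch {b : Bool} {k y : ℕ} (h : Nb φ (ch b k) y) :
    y = 8 * k ∨ y = 8 * (k + 1) ∨ y = ch' (!b) k ∨
    ∃ z ∈ lits φ, y = 8 * z.2 + 6 ∧ z.1 = (!b, k) := by
  have h0 := ch_mod b k
  rcases nb_iff.1 h with ⟨i, hi, h⟩ | ⟨z, hz, h⟩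
  · have hb : ch b k = 8 * i + 1 ∨ ch b k = 8 * i + 2 := by
      simp only [varE, List.mem_cons, List.not_mem_nil, or_false, Prod.mk.injEq] at h
      omega
    have hik : i = k := by omega
    subst hik
    simp only [varE, List.mem_cons, List.not_mem_nil, or_false, Prod.mk.injEq] at h
    cases b
    · simp only [ch, ch', Bool.not_false, Bool.false_eq_true, if_false, if_true] at h ⊢
      omega
    · simp only [ch, ch', Bool.not_true, Bool.false_eq_true, if_false, if_true] at h ⊢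
      omega
  · have h1 := (ch_mod (!z.1.1) z.1.2).1
    have h2 := (ch'_mod (!z.1.1) z.1.2).1
    simp only [litE, List.mem_cons, List.not_mem_nil, or_false, Prod.mk.injEq] at h
    have h3 : y = 8 * z.2 + 6 ∧ ch b k = ch (!z.1.1) z.1.2 := by omega
    obtain ⟨h4, h5⟩ := ch_inj h3.2
    exact Or.inr (Or.inr (Or.inr ⟨z, hz, h3.1, Prod.ext (by rw [h4]; simp) h5.symm⟩))

/-- The neighbours of `ch' b k`. -/
theorem nb_ch' {b : Bool} {k y : ℕ} (h : Nb φ (ch' b k) y) :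
    y = 8 * k + 3 ∨ y = 8 * (k + 1) + 3 ∨ y = ch (!b) k ∨
    ∃ z ∈ lits φ, y = 8 * z.2 + 6 ∧ z.1 = (!b, k) := by
  have h0 := ch'_mod b k
  rcases nb_iff.1 h with ⟨i, hi, h⟩ | ⟨z, hz, h⟩
  · have hb : ch' b k = 8 * i + 4 ∨ ch' b k = 8 * i + 5 := by
      simp only [varE, List.mem_cons, List.not_mem_nil, or_false, Prod.mk.injEq] at h
      omega
    have hik : i = k := by omega
    subst hik
    simp only [varE, List.mem_cons, List.not_mem_nil, or_false, Prod.mk.injEq] at h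
    cases b
    · simp only [ch, ch', Bool.not_false, Bool.false_eq_true, if_false, if_true] at h ⊢
      omega
    · simp only [ch, ch', Bool.not_true, Bool.false_eq_true, if_false, if_true] at h ⊢
      omega
  · have h1 := (ch_mod (!z.1.1) z.1.2).1
    have h2 := (ch'_mod (!z.1.1) z.1.2).1
    simp only [litE, List.mem_cons, List.not_mem_nil, or_false, Prod.mk.injEq] at h
    have h3 : y = 8 * z.2 + 6 ∧ ch' b k = ch' (!z.1.1) z.1.2 := by omega
    obtain ⟨h4, h5⟩ := ch'_inj h3.2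
    exact Or.inr (Or.inr (Or.inr ⟨z, hz, h3.1, Prod.ext (by rw [h4]; simp) h5.symm⟩))

/-- The neighbours of the vertex of a literal. -/
theorem nb_w {z : Lit ℕ × ℕ} (hz : z ∈ lits φ) {y : ℕ} (h : Nb φ (8 * z.2 + 6) y) :
    y = 8 * (3 * φ.length + z.2 / 3) ∨ y = 8 * (3 * φ.length + z.2 / 3 + 1) ∨
    y = ch (!z.1.1) z.1.2 ∨ y = ch' (!z.1.1) z.1.2 := by
  rcases nb_iff.1 h with ⟨i, hi, h⟩ | ⟨z', hz', h⟩
  · simp only [varE, List.mem_cons, List.not_mem_nil, or_false, Prod.mk.injEq] at h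
    omega
  · have h1 := (ch_mod (!z'.1.1) z'.1.2).1
    have h2 := (ch'_mod (!z'.1.1) z'.1.2).1
    have h3 : z'.2 = z.2 := by
      simp only [litE, List.mem_cons, List.not_mem_nil, or_false, Prod.mk.injEq] at h
      omega
    have h4 : z' = z := by
      obtain ⟨l, i⟩ := z
      obtain ⟨l', i'⟩ := z'
      simp only at h3
      subst h3
      rw [lits_unique hz hz']
    subst h4
    simp only [litE, List.mem_cons, List.not_mem_nil, or_false, Prod.mk.injEq] at h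
    omega

theorem nb_w_ch {z : Lit ℕ × ℕ} (hz : z ∈ lits φ) : Nb φ (8 * z.2 + 6) (ch (!z.1.1) z.1.2) :=
  Or.inl (mem_L.2 (Or.inr ⟨z, hz, by simp [litE]⟩))

theorem nb_w_ch' {z : Lit ℕ × ℕ} (hz : z ∈ lits φ) : Nb φ (8 * z.2 + 6) (ch' (!z.1.1) z.1.2) :=
  Or.inl (mem_L.2 (Or.inr ⟨z, hz, by simp [litE]⟩))

theorem nb_ch_ch' {b : Bool} {i : ℕ} (hi : i < 3 * φ.length) : Nb φ (ch b i) (ch' (!b) i) := by
  refine Or.inl (mem_L.2 (Or.inl ⟨i, hi, ?_⟩))
  cases b <;> simp [varE, ch, ch']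

theorem nb_g_ch {b : Bool} {i : ℕ} (hi : i < 3 * φ.length) : Nb φ (8 * i) (ch b i) := by
  refine Or.inl (mem_L.2 (Or.inl ⟨i, hi, ?_⟩))
  cases b <;> simp [varE, ch]

theorem nb_g'_ch' {b : Bool} {i : ℕ} (hi : i < 3 * φ.length) : Nb φ (8 * i + 3) (ch' b i) := by
  refine Or.inl (mem_L.2 (Or.inl ⟨i, hi, ?_⟩))
  cases b <;> simp [varE, ch']

end Nbrs

/-! ### The induction -/

section Backward

variable {φ : Φ} {P Q : ℕ → Prop} {zP zQ : ℕ}

/-- The first `a` joints and the first `b` truth values on the first track. -/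
def D (a b : ℕ) : Set ℕ := {x | (∃ k < a, x = 8 * k) ∨ ∃ k < b, ∃ c, x = ch c k}

/-- The first `a` joints and the first `b` truth values on the second track. -/
def D' (a b : ℕ) : Set ℕ := {x | (∃ k < a, x = 8 * k + 3) ∨ ∃ k < b, ∃ c, x = ch' c k}

variable
  (h1 : ∀ u, P u → ¬ Q u) (h2 : ∀ u v, Nb φ u v → P u → ¬ Q v)
  (hP : ∀ S : Set ℕ, 0 ∈ S → zP ∉ S → ∃ x ∈ S, ∃ v, v ∉ S ∧ P x ∧ P v ∧ Nb φ x v)
  (hQ : ∀ S : Set ℕ, 3 ∈ S → zQ ∉ S → ∃ x ∈ S, ∃ v, v ∉ S ∧ Q x ∧ Q v ∧ Nb φ x v)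
  (hzP : zP = 8 * (4 * φ.length) ∨ zP = 8 * (3 * φ.length) + 3)
  (hzQ : zQ = 8 * (4 * φ.length) ∨ zQ = 8 * (3 * φ.length) + 3)
  (hpos : 0 < φ.length) (hB : Bounded3 φ)

/-- The statement proved by induction: the first `i` levels of the variables are passed
consistently. -/
def Inv (P Q : ℕ → Prop) (i : ℕ) : Prop :=
  ∀ k < i, P (8 * k) ∧ Q (8 * k + 3) ∧ ∃ c, P (ch c k) ∧ Q (ch' c k)

include h2 in
theorem cons_P {i : ℕ} (hi : i ≤ 3 * φ.length) (hI : Inv P Q i) {k : ℕ} (hk : k < i) {b : Bool}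
    (hb : P (ch b k)) : Q (ch' b k) := by
  obtain ⟨-, -, c, hc, hc'⟩ := hI k hk
  by_cases hbc : b = c
  · rw [hbc]; exact hc'
  · exfalso
    have : c = !b := by cases b <;> cases c <;> simp_all
    subst this
    exact h2 _ _ (nb_ch_ch' (by omega)) hb hc'

include h2 in
theorem cons_Q {i : ℕ} (hi : i ≤ 3 * φ.length) (hI : Inv P Q i) {k : ℕ} (hk : k < i) {b : Bool}
    (hb : Q (ch' b k)) : P (ch b k) := by
  obtain ⟨-, -, c, hc, hc'⟩ := hI k hk
  by_cases hbc : b = c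
  · rw [hbc]; exact hc
  · exfalso
    have : b = !c := by cases b <;> cases c <;> simp_all
    subst this
    exact h2 _ _ (nb_ch_ch' (by omega)) hc hb

include h2 hB in
/-- No vertex of a literal next to a passed truth value is on one of the paths. -/
theorem w_P {i : ℕ} (hi : i ≤ 3 * φ.length) (hI : Inv P Q i) {k : ℕ} (hk : k < i) {b : Bool}
    (hb : P (ch b k)) {z : Lit ℕ × ℕ} (hz : z ∈ lits φ) (hzb : z.1 = (!b, k))
    (hw : P (8 * z.2 + 6)) : False := by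
  have h3 := nb_w_ch' hz
  rw [hzb] at h3
  simp only [Bool.not_not] at h3
  exact h2 _ _ h3 hw (cons_P h2 hi hI hk hb)

include h2 hB in
theorem w_Q {i : ℕ} (hi : i ≤ 3 * φ.length) (hI : Inv P Q i) {k : ℕ} (hk : k < i) {b : Bool}
    (hb : Q (ch' b k)) {z : Lit ℕ × ℕ} (hz : z ∈ lits φ) (hzb : z.1 = (!b, k))
    (hw : Q (8 * z.2 + 6)) : False := by
  have h3 := nb_symm (nb_w_ch hz)
  rw [hzb] at h3
  simp only [Bool.not_not] at h3
  exact h2 _ _ h3 (cons_Q h2 hi hI hk hb) hw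

include h2 hP hzP hpos hB in
/-- The first path reaches the joint `i`. -/
theorem stepP_g {i : ℕ} (hi : i ≤ 3 * φ.length) (hI : Inv P Q i) (h0 : P 0) : P (8 * i) := by
  rcases Nat.eq_zero_or_pos i with rfl | hpi
  · exact h0
  obtain ⟨x, hx, v, hv, hPx, hPv, hn⟩ := hP (D i i) (Or.inl ⟨0, hpi, rfl⟩) (by
    rintro (⟨k, hk, h⟩ | ⟨k, hk, c, h⟩)
    · omega
    · have := ch_mod c k
      omega)
  rcases hx with ⟨k, hk, rfl⟩ | ⟨k, hk, b, rfl⟩
  · rcases nb_g hn with ⟨-, c, rfl⟩ | ⟨j, hj, rfl, c, rfl⟩ | ⟨z, hz, rfl, h⟩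
    · exact absurd (Or.inr ⟨k, hk, c, rfl⟩) hv
    · exact absurd (Or.inr ⟨j, by omega, c, rfl⟩) hv
    · omega
  · rcases nb_ch hn with rfl | rfl | rfl | ⟨z, hz, rfl, hzb⟩
    · exact absurd (Or.inl ⟨k, hk, rfl⟩) hv
    · by_cases hki : k + 1 < i
      · exact absurd (Or.inl ⟨k + 1, hki, rfl⟩) hv
      · have : k + 1 = i := by omega
        rwa [← this]
    · exact absurd (hI k hk).2.1 (h2 _ _ (nb_symm (nb_g'_ch' (by omega))) hPv)
    · exact (w_P h2 hB hi hI hk hPx hz hzb hPv).elim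

include h2 hQ hzQ hpos hB in
/-- The second path reaches the joint `i`. -/
theorem stepQ_g {i : ℕ} (hi : i ≤ 3 * φ.length) (hI : Inv P Q i) (h0 : Q 3) : Q (8 * i + 3) := by
  rcases Nat.eq_zero_or_pos i with rfl | hpi
  · exact h0
  obtain ⟨x, hx, v, hv, hPx, hPv, hn⟩ := hQ (D' i i) (Or.inl ⟨0, hpi, rfl⟩) (by
    rintro (⟨k, hk, h⟩ | ⟨k, hk, c, h⟩)
    · omega
    · have := ch'_mod c k
      omega)
  rcases hx with ⟨k, hk, rfl⟩ | ⟨k, hk, b, rfl⟩
  · rcases nb_g' hn with ⟨-, c, rfl⟩ | ⟨j, hj, rfl, c, rfl⟩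
    · exact absurd (Or.inr ⟨k, hk, c, rfl⟩) hv
    · exact absurd (Or.inr ⟨j, by omega, c, rfl⟩) hv
  · rcases nb_ch' hn with rfl | rfl | rfl | ⟨z, hz, rfl, hzb⟩
    · exact absurd (Or.inl ⟨k, hk, rfl⟩) hv
    · by_cases hki : k + 1 < i
      · exact absurd (Or.inl ⟨k + 1, hki, rfl⟩) hv
      · have : k + 1 = i := by omega
        rwa [← this]
    · exact absurd hPv (h2 _ _ (nb_g_ch (by omega)) (hI k hk).1)
    · exact (w_Q h2 hB hi hI hk hPx hz hzb hPv).elim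

include h2 hP hzP hpos hB in
/-- The first path passes one of the truth values of the variable `i`. -/
theorem stepP_ch {i : ℕ} (hi : i < 3 * φ.length) (hI : Inv P Q i) : ∃ c, P (ch c i) := by
  obtain ⟨x, hx, v, hv, hPx, hPv, hn⟩ := hP (D (i + 1) i) (Or.inl ⟨0, by omega, rfl⟩) (by
    rintro (⟨k, hk, h⟩ | ⟨k, hk, c, h⟩)
    · omega
    · have := ch_mod c k
      omega)
  rcases hx with ⟨k, hk, rfl⟩ | ⟨k, hk, b, rfl⟩
  · rcases nb_g hn with ⟨-, c, rfl⟩ | ⟨j, hj, rfl, c, rfl⟩ | ⟨z, hz, rfl, h⟩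
    · by_cases hki : k < i
      · exact absurd (Or.inr ⟨k, hki, c, rfl⟩) hv
      · have : k = i := by omega
        subst this
        exact ⟨c, hPv⟩
    · exact absurd (Or.inr ⟨j, by omega, c, rfl⟩) hv
    · omega
  · rcases nb_ch hn with rfl | rfl | rfl | ⟨z, hz, rfl, hzb⟩
    · exact absurd (Or.inl ⟨k, by omega, rfl⟩) hv
    · exact absurd (Or.inl ⟨k + 1, by omega, rfl⟩) hv
    · exact absurd (hI k hk).2.1 (h2 _ _ (nb_symm (nb_g'_ch' (by omega))) hPv)
    · exact (w_P h2 hB hi.le hI hk hPx hz hzb hPv).elim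

include h2 hQ hzQ hpos hB in
/-- The second path passes one of the truth values of the variable `i`. -/
theorem stepQ_ch {i : ℕ} (hi : i < 3 * φ.length) (hI : Inv P Q i) : ∃ c, Q (ch' c i) := by
  obtain ⟨x, hx, v, hv, hPx, hPv, hn⟩ := hQ (D' (i + 1) i) (Or.inl ⟨0, by omega, rfl⟩) (by
    rintro (⟨k, hk, h⟩ | ⟨k, hk, c, h⟩)
    · omega
    · have := ch'_mod c k
      omega)
  rcases hx with ⟨k, hk, rfl⟩ | ⟨k, hk, b, rfl⟩
  · rcases nb_g' hn with ⟨-, c, rfl⟩ | ⟨j, hj, rfl, c, rfl⟩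
    · by_cases hki : k < i
      · exact absurd (Or.inr ⟨k, hki, c, rfl⟩) hv
      · have : k = i := by omega
        subst this
        exact ⟨c, hPv⟩
    · exact absurd (Or.inr ⟨j, by omega, c, rfl⟩) hv
  · rcases nb_ch' hn with rfl | rfl | rfl | ⟨z, hz, rfl, hzb⟩
    · exact absurd (Or.inl ⟨k, by omega, rfl⟩) hv
    · exact absurd (Or.inl ⟨k + 1, by omega, rfl⟩) hv
    · exact absurd hPv (h2 _ _ (nb_g_ch (by omega)) (hI k hk).1)
    · exact (w_Q h2 hB hi.le hI hk hPx hz hzb hPv).elim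

include h2 hP hQ hzP hzQ hpos hB in
theorem inv_all (h0 : P 0) (h0' : Q 3) : ∀ i ≤ 3 * φ.length, Inv P Q i := by
  intro i
  induction i with
  | zero => exact fun _ k hk => absurd hk (by omega)
  | succ i ih =>
    intro hi k hk
    have hI := ih (by omega)
    by_cases hki : k < i
    · exact hI k hki
    · have : k = i := by omega
      subst this
      refine ⟨stepP_g h2 hP hzP hpos hB (by omega) hI h0, stepQ_g h2 hQ hzQ hpos hB (by omega) hI h0', ?_⟩
      obtain ⟨c, hc⟩ := stepP_ch h2 hP hzP hpos hB (by omega) hI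
      obtain ⟨c', hc'⟩ := stepQ_ch h2 hQ hzQ hpos hB (by omega) hI
      by_cases hcc : c' = c
      · subst hcc
        exact ⟨c', hc, hc'⟩
      · exfalso
        have : c' = !c := by cases c <;> cases c' <;> simp_all
        subst this
        exact h2 _ _ (nb_ch_ch' (by omega)) hc hc'

include h1 h2 hP hQ hzP hzQ hpos hB in
theorem backward_aux (h0 : P 0) (h0' : Q 3) (hend : P zP) :
    ∃ τ : ℕ → Bool, ∀ j < φ.length, ∃ x ∈ lits φ, x.2 / 3 = j ∧ τ x.1.2 = x.1.1 := by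
  classical
  have hI := inv_all h2 hP hQ hzP hzQ hpos hB h0 h0' _ le_rfl
  have hQe := stepQ_g h2 hQ hzQ hpos hB le_rfl hI h0'
  have hzP' : zP = 8 * (4 * φ.length) := by
    rcases hzP with h | h
    · exact h
    · exact absurd hQe (h ▸ h1 _ hend)
  refine ⟨fun k => decide (P (ch true k)), fun j hj => ?_⟩
  have key : ∀ z ∈ lits φ, P (8 * z.2 + 6) → decide (P (ch true z.1.2)) = z.1.1 := by
    intro z hz hw
    have hv := lits_var hB hz
    obtain ⟨-, -, c, hc, hc'⟩ := hI z.1.2 hv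
    have hcz : c = z.1.1 := by
      by_contra hne
      have : c = !z.1.1 := by cases c <;> cases h : z.1.1 <;> simp_all
      subst this
      exact h2 _ _ (nb_w_ch' hz) hw hc'
    cases h : z.1.1
    · rw [h] at hcz
      subst hcz
      rw [decide_eq_false_iff_not]
      intro ht
      exact h2 _ _ (nb_ch_ch' (b := true) hv) ht hc'
    · rw [h] at hcz
      subst hcz
      rw [decide_eq_true_eq]
      exact hc
  obtain ⟨x, hx, v, hv, hPx, hPv, hn⟩ := hP
    {x | (∃ k < 3 * φ.length + j + 1, x = 8 * k) ∨ (∃ k < 3 * φ.length, ∃ c, x = ch c k) ∨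
      ∃ z ∈ lits φ, z.2 / 3 < j ∧ x = 8 * z.2 + 6}
    (Or.inl ⟨0, by omega, rfl⟩) (by
    rintro (⟨k, hk, h⟩ | ⟨k, hk, c, h⟩ | ⟨z, hz, hzj, h⟩)
    · omega
    · have := ch_mod c k
      omega
    · omega)
  rcases hx with ⟨k, hk, rfl⟩ | ⟨k, hk, b, rfl⟩ | ⟨z, hz, hzj, rfl⟩
  · rcases nb_g hn with ⟨hk', c, rfl⟩ | ⟨i, hi, rfl, c, rfl⟩ | ⟨z, hz, rfl, h⟩
    · exact absurd (Or.inr (Or.inl ⟨k, hk', c, rfl⟩)) hv
    · exact absurd (Or.inr (Or.inl ⟨i, hi, c, rfl⟩)) hv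
    · by_cases hzj : z.2 / 3 < j
      · exact absurd (Or.inr (Or.inr ⟨z, hz, hzj, rfl⟩)) hv
      · exact ⟨z, hz, by omega, key z hz hPv⟩
  · rcases nb_ch hn with rfl | rfl | rfl | ⟨z, hz, rfl, hzb⟩
    · exact absurd (Or.inl ⟨k, by omega, rfl⟩) hv
    · exact absurd (Or.inl ⟨k + 1, by omega, rfl⟩) hv
    · exact absurd (hI k hk).2.1 (h2 _ _ (nb_symm (nb_g'_ch' (by omega))) hPv)
    · exact (w_P h2 hB le_rfl hI hk hPx hz hzb hPv).elim
  · rcases nb_w hz hn with rfl | rfl | rfl | rfl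
    · exact absurd (Or.inl ⟨_, by omega, rfl⟩) hv
    · exact absurd (Or.inl ⟨_, by omega, rfl⟩) hv
    · exact absurd (Or.inr (Or.inl ⟨_, lits_var hB hz, _, rfl⟩)) hv
    · exact absurd (hI _ (lits_var hB hz)).2.1
        (h2 _ _ (nb_symm (nb_g'_ch' (lits_var hB hz))) hPv)

end Backward

theorem exists_two (a : Fin 3 → ℕ) (ha : ∀ i, a i ∈ ([0, 3, 7] : List ℕ))
    (hinj : ∀ i j, i ≠ j → a i ≠ a j) :
    ∃ i j k : Fin 3, i ≠ j ∧ i ≠ k ∧ j ≠ k ∧ a i = 0 ∧ a j = 3 ∧ a k = 7 := by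
  have h0 := ha 0
  have h1 := ha 1
  have h2 := ha 2
  have h01 := hinj 0 1 (by decide)
  have h02 := hinj 0 2 (by decide)
  have h12 := hinj 1 2 (by decide)
  simp only [List.mem_cons, List.not_mem_nil, or_false] at h0 h1 h2
  rcases h0 with h0 | h0 | h0 <;> rcases h1 with h1 | h1 | h1 <;> rcases h2 with h2 | h2 | h2 <;>
    first
    | (exfalso; omega)
    | exact ⟨0, 1, 2, by decide, by decide, by decide, h0, h1, h2⟩
    | exact ⟨0, 2, 1, by decide, by decide, by decide, h0, h2, h1⟩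
    | exact ⟨1, 0, 2, by decide, by decide, by decide, h1, h0, h2⟩
    | exact ⟨1, 2, 0, by decide, by decide, by decide, h1, h2, h0⟩
    | exact ⟨2, 0, 1, by decide, by decide, by decide, h2, h0, h1⟩
    | exact ⟨2, 1, 0, by decide, by decide, by decide, h2, h1, h0⟩

theorem backward {φ : Φ} (hB : Bounded3 φ) (hne : φ ≠ []) (h : MM3 (red φ)) :
    ∃ τ : ℕ → Bool, ∀ j < φ.length, ∃ x ∈ lits φ, x.2 / 3 = j ∧ τ x.1.2 = x.1.1 := by
  have hpos : 0 < φ.length := List.length_pos_iff.2 hne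
  obtain ⟨-, a, z, p, hp, hfar⟩ := h
  simp only [red] at hp hfar p
  have hL := L_lt hB
  have hdis : ∀ i j, i ≠ j → ∀ u ∈ (p i).support, u ∉ (p j).support := fun i j hij =>
    (far_base hL (p i) (p j) (hfar i j hij)).1
  have haA : ∀ i, a i ∈ ([0, 3, 7] : List ℕ) := fun i =>
    ((hp i).2.1 _ (p i).start_mem_support).2 rfl
  have hzZ : ∀ i, z i ∈ ([8 * (4 * φ.length), 8 * (3 * φ.length) + 3, 7] : List ℕ) := fun i =>
    ((hp i).2.2 _ (p i).end_mem_support).2 rfl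
  obtain ⟨i, j, k, hij, hik, hjk, hai, haj, hak⟩ := exists_two a haA (by
    intro i j hij h
    have h3 := hdis i j hij _ (p i).start_mem_support
    rw [h] at h3
    exact h3 (p j).start_mem_support)
  have hst : ∀ l x, a l = x → x ∈ (p l).support := fun l x h => by
    subst h
    exact (p l).start_mem_support
  have h7 : (7 : ℕ) ∈ (p k).support := hst k 7 hak
  have hz7 : ∀ l, l ≠ k → z l = 8 * (4 * φ.length) ∨ z l = 8 * (3 * φ.length) + 3 := by
    intro l hl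
    have h3 := hzZ l
    simp only [List.mem_cons, List.not_mem_nil, or_false] at h3
    rcases h3 with h3 | h3 | h3
    · exact Or.inl h3
    · exact Or.inr h3
    · have h4 := hdis l k hl _ (p l).end_mem_support
      rw [h3] at h4
      exact absurd h7 h4
  have hN : 7 < N φ := by unfold N; omega
  have hend : ∀ l, l ≠ k → z l < N φ := by
    intro l hl
    unfold N
    rcases hz7 l hl with h | h <;> omega
  have hex : ∀ l x, l ≠ k → a l = x → x < N φ → ∀ S : Set ℕ, x ∈ S → z l ∉ S → ∃ x ∈ S, ∃ v,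
      v ∉ S ∧ x ∈ (p l).support ∧ v ∈ (p l).support ∧ Nb φ x v := by
    intro l x hl hx hal S h1 h2
    subst hx
    exact exit hL (p l) S h1 hal h2 (hend l hl)
  refine backward_aux (P := fun x => x ∈ (p i).support) (Q := fun x => x ∈ (p j).support)
    (zP := z i) (zQ := z j) (hdis i j hij)
    (fun u v huv => (far_base hL (p i) (p j) (hfar i j hij)).2 u v huv) ?_ ?_
    (hz7 i hik) (hz7 j hjk) hpos hB (hst i 0 hai) (hst j 3 haj) (p i).end_mem_support
  · exact hex i 0 hik hai (by omega)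
  · exact hex j 3 hjk haj (by omega)

theorem sat_iff (φ : Φ) : SAT3 φ ↔
    ∃ τ : ℕ → Bool, ∀ j < φ.length, ∃ x ∈ lits φ, x.2 / 3 = j ∧ τ x.1.2 = x.1.1 := by
  unfold SAT3 Sat3V
  constructor
  · rintro ⟨τ, h⟩
    refine ⟨τ, fun j hj => ?_⟩
    have hc := h φ[j] (List.getElem_mem hj)
    have hg : φ[j]? = some φ[j] := List.getElem?_eq_getElem hj
    rcases hc with hc | hc | hc
    · refine ⟨(φ[j].1, 3 * j), mem_lits.2 ⟨φ[j], ?_, ?_⟩, ?_, ?_⟩
      · rw [show 3 * j / 3 = j by omega]; exact hg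
      · rw [show 3 * j % 3 = 0 by omega]; rfl
      · simp only; omega
      · exact hc
    · refine ⟨(φ[j].2.1, 3 * j + 1), mem_lits.2 ⟨φ[j], ?_, ?_⟩, ?_, ?_⟩
      · rw [show (3 * j + 1) / 3 = j by omega]; exact hg
      · rw [show (3 * j + 1) % 3 = 1 by omega]; rfl
      · simp only; omega
      · exact hc
    · refine ⟨(φ[j].2.2, 3 * j + 2), mem_lits.2 ⟨φ[j], ?_, ?_⟩, ?_, ?_⟩
      · rw [show (3 * j + 2) / 3 = j by omega]; exact hg
      · rw [show (3 * j + 2) % 3 = 2 by omega]; rfl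
      · simp only; omega
      · exact hc
  · rintro ⟨τ, h⟩
    refine ⟨τ, fun c hc => ?_⟩
    obtain ⟨j, hj, rfl⟩ := List.mem_iff_getElem.1 hc
    obtain ⟨⟨l, i⟩, hx, hxj, ht⟩ := h j hj
    obtain ⟨c, hc, h2⟩ := mem_lits.1 hx
    simp only at hxj ht
    rw [hxj, List.getElem?_eq_getElem hj] at hc
    obtain rfl := Option.some.inj hc
    have h3 := List.mem_of_getElem? h2
    simp only [List.mem_cons, List.not_mem_nil, or_false] at h3
    rcases h3 with rfl | rfl | rfl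
    · exact Or.inl ht
    · exact Or.inr (Or.inl ht)
    · exact Or.inr (Or.inr ht)

theorem red_correct {φ : Φ} (hB : Bounded3 φ) (hne : φ ≠ []) : SAT3 φ ↔ MM3 (red φ) := by
  rw [sat_iff]
  exact ⟨fun ⟨τ, h⟩ => forward hB hne h, fun h => backward hB hne h⟩

end Pool.Agent.Q321.MM
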