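import Pool.Agent.NPC.Defs

/-!
# Three pairwise far-apart A-Z paths: the decision problem
-/

namespace Pool.Agent.Q321.MM

/-- Instances: the list `V` of the vertices and the list `E` of the edges of a graph, and the
sets `A` and `Z`. -/
abbrev Inst : Type := (List ℕ × List (ℕ × ℕ)) × (List ℕ × List ℕ)

/-- The simple graph with the edge list `E`: two different numbers `u`, `v` are adjacent when
`(u, v)` or `(v, u)` is in the list. (Numbers which are not vertices of the instance are isolated.)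
-/
def gr (E : List (ℕ × ℕ)) : SimpleGraph ℕ := SimpleGraph.fromRel (fun u v => (u, v) ∈ E)

/-- The data describe a finite simple graph with vertex set `V` and two sets of vertices. -/
def Valid (I : Inst) : Prop :=
  (∀ e ∈ I.1.2, e.1 ∈ I.1.1 ∧ e.2 ∈ I.1.1 ∧ e.1 ≠ e.2) ∧
    (∀ a ∈ I.2.1, a ∈ I.1.1) ∧ (∀ z ∈ I.2.2, z ∈ I.1.1)

/-- `p` is an `A`-`Z` path: a path whose first vertex is its only vertex in `A` and whose last
vertex is its only vertex in `Z`. -/
def IsAZPath {G : SimpleGraph ℕ} (A Z : List ℕ) {a z : ℕ} (p : G.Walk a z) : Prop :=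
  p.IsPath ∧ (∀ v ∈ p.support, v ∈ A ↔ v = a) ∧ (∀ v ∈ p.support, v ∈ Z ↔ v = z)

/-- **The problem MM3.** Are there three `A`-`Z` paths such that any two vertices on different
paths have distance at least three in the graph? -/
def MM3 (I : Inst) : Prop :=
  Valid I ∧ ∃ (a z : Fin 3 → ℕ) (p : ∀ i, (gr I.1.2).Walk (a i) (z i)),
    (∀ i, IsAZPath I.2.1 I.2.2 (p i)) ∧
    ∀ i j, i ≠ j → ∀ u ∈ (p i).support, ∀ v ∈ (p j).support, 3 ≤ (gr I.1.2).edist u v

end Pool.Agent.Q321.MM
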