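import Pool.Agent.Q321.MM.Bwd
import Pool.Agent.Y592.OP.NPMem
import Pool.Agent.Q321.RB.UndirFin

/-!
# MM3 is NP-complete: polynomial time and membership in NP
-/

namespace Pool.Agent.Q321.MM

open Pool.Agent.NPC Pool.Agent.NPC.H634R2 Pool.Agent.Y592.OP

section PolyRed

variable {α : Type} [TEnc α]

theorem varE_poly {f : α → ℕ} (hf : NPC.Poly f) : NPC.Poly (fun a => varE (f a)) := by
  unfold varE
  fun_prop

theorem ch_poly {b : α → Bool} {f : α → ℕ} (hb : NPC.Poly b) (hf : NPC.Poly f) :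
    NPC.Poly (fun a => ch (b a) (f a)) := by
  unfold ch
  exact PP.ite (PP.bool hb) (by fun_prop) (by fun_prop)

theorem ch'_poly {b : α → Bool} {f : α → ℕ} (hb : NPC.Poly b) (hf : NPC.Poly f) :
    NPC.Poly (fun a => ch' (b a) (f a)) := by
  unfold ch'
  exact PP.ite (PP.bool hb) (by fun_prop) (by fun_prop)

theorem litE_poly {n : α → ℕ} {x : α → Lit ℕ × ℕ} (hn : NPC.Poly n) (hx : NPC.Poly x) :
    NPC.Poly (fun a => litE (n a) (x a)) := by
  unfold litE
  have h1 : NPC.Poly (fun a => ch (!(x a).1.1) (x a).1.2) := ch_poly (by fun_prop) (by fun_prop)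
  have h2 : NPC.Poly (fun a => ch' (!(x a).1.1) (x a).1.2) := ch'_poly (by fun_prop) (by fun_prop)
  fun_prop

theorem L_eq (φ : Φ) : L φ =
    ((lits φ).map (fun x => x.2)).flatMap varE ++ (lits φ).flatMap (litE (3 * φ.length)) := by
  unfold L
  rw [← gV_eq]
  rfl

theorem L_poly : NPC.Poly L := by
  refine NPC.Poly.congr (f := fun φ : Φ => ((lits φ).map (fun x => x.2)).flatMap varE ++
    (lits φ).flatMap (litE (3 * φ.length))) ?_ (fun φ => (L_eq φ).symm)
  have hl := lits_poly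
  refine NPC.Poly.append ?_ ?_
  · exact NPC.Poly.flatMap (F := fun _ i => varE i) (NPC.Poly.map (F := fun _ x => x.2) hl (by fun_prop))
      (varE_poly (by fun_prop))
  · exact NPC.Poly.flatMap (F := fun (φ : Φ) x => litE (3 * φ.length) x) hl
      (litE_poly (by fun_prop) (by fun_prop))

theorem subE_poly {N : α → ℕ} {l : α → List (ℕ × ℕ)} (hN : NPC.Poly N) (hl : NPC.Poly l) :
    NPC.Poly (fun a => subE (N a) (l a)) := by
  unfold subE
  fun_prop

theorem upoly_length {β : Type} [TEnc β] {l : α → List β} (hl : NPC.Poly l) :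
    UPoly (fun a => (l a).length) := UPoly.length hl

theorem red_poly : NPC.Poly red := by
  unfold red
  have hL := L_poly
  have hN : NPC.Poly N := by
    unfold N
    fun_prop
  have h1 : UPoly (fun φ : Φ => N φ + (L φ).length) := by
    unfold N
    exact UPoly.add (UPoly.mul (UPoly.const 8) (UPoly.add (UPoly.mul (UPoly.const 4)
      (UPoly.length NPC.Poly.id)) (UPoly.const 1))) (UPoly.length hL)
  refine NPC.Poly.pair (NPC.Poly.pair h1.range (subE_poly hN hL)) ?_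
  fun_prop

theorem hardI_MM3 : HardI MM3 :=
  (hardPr_SAT3b.trans (Pr' := fun _ => True) red_poly (fun _ _ => trivial)
    (fun _ h => red_correct h.2.1 h.2.2)).toHardI

end PolyRed

/-! ### Membership in NP -/

theorem adj_gr {E : List (ℕ × ℕ)} {u v : ℕ} :
    (gr E).Adj u v ↔ u ≠ v ∧ ((u, v) ∈ E ∨ (v, u) ∈ E) := by
  unfold gr
  rw [SimpleGraph.fromRel_adj]

theorem isChain_iff_zip {α : Type} (R : α → α → Prop) : ∀ l : List α,
    l.IsChain R ↔ ∀ p ∈ l.zip l.tail, R p.1 p.2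
  | [] => by simp
  | [a] => by simp
  | a :: b :: l => by
    rw [List.isChain_cons_cons, isChain_iff_zip R (b :: l)]
    simp

/-- A list of vertices describing an `A`-`Z` path. -/
def AZList (I : Inst) (l : List ℕ) : Prop :=
  (l ≠ [] ∧ ∀ p ∈ l.zip l.tail, (p.1 ≠ p.2 ∧ ((p.1, p.2) ∈ I.1.2 ∨ (p.2, p.1) ∈ I.1.2))) ∧
    (l.Nodup ∧ ((∀ v ∈ l, (v ∈ I.2.1 ∧ l.head? = some v) ∨ (¬ v ∈ I.2.1 ∧ ¬ l.head? = some v)) ∧
      (∀ v ∈ l, (v ∈ I.2.2 ∧ l.getLast? = some v) ∨ (¬ v ∈ I.2.2 ∧ ¬ l.getLast? = some v))))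

/-- Two lists of vertices at distance at least three. -/
def FarL (I : Inst) (l l' : List ℕ) : Prop :=
  ∀ u ∈ l, ∀ v ∈ l', (u ≠ v ∧ (u, v) ∉ I.1.2 ∧ (v, u) ∉ I.1.2) ∧
    ∀ w ∈ I.1.1, ¬ (((u, w) ∈ I.1.2 ∨ (w, u) ∈ I.1.2) ∧ ((w, v) ∈ I.1.2 ∨ (v, w) ∈ I.1.2))

theorem azList_of {I : Inst} {a z : ℕ} {p : (gr I.1.2).Walk a z} (h : IsAZPath I.2.1 I.2.2 p) :
    AZList I p.support := by
  have hh : p.support.head? = some a := by
    rw [List.head?_eq_some_head p.support_ne_nil, p.head_support]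
  have hl : p.support.getLast? = some z := by
    rw [List.getLast?_eq_some_getLast p.support_ne_nil, p.getLast_support]
  refine ⟨⟨p.support_ne_nil, ?_⟩, h.1.support_nodup, ?_, ?_⟩
  · have h1 := (isChain_iff_zip _ _).1 p.isChain_adj_support
    intro q hq
    exact adj_gr.1 (h1 q hq)
  · intro v hv
    rw [hh]
    by_cases hva : v = a
    · subst hva
      exact Or.inl ⟨(h.2.1 v hv).2 rfl, rfl⟩
    · exact Or.inr ⟨fun h' => hva ((h.2.1 v hv).1 h'), fun h' => hva (Option.some.inj h').symm⟩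
  · intro v hv
    rw [hl]
    by_cases hva : v = z
    · subst hva
      exact Or.inl ⟨(h.2.2 v hv).2 rfl, rfl⟩
    · exact Or.inr ⟨fun h' => hva ((h.2.2 v hv).1 h'), fun h' => hva (Option.some.inj h').symm⟩

theorem of_azList {I : Inst} {l : List ℕ} (h : AZList I l) :
    ∃ (a z : ℕ) (p : (gr I.1.2).Walk a z), IsAZPath I.2.1 I.2.2 p ∧ p.support = l := by
  obtain ⟨⟨hne, hc⟩, hnd, hA, hZ⟩ := h
  have hch : l.IsChain (gr I.1.2).Adj := by
    rw [isChain_iff_zip]
    intro q hq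
    exact adj_gr.2 (hc q hq)
  refine ⟨_, _, SimpleGraph.Walk.ofSupport l hne hch, ⟨?_, ?_, ?_⟩,
    SimpleGraph.Walk.support_ofSupport hne hch⟩
  · rw [SimpleGraph.Walk.isPath_def, SimpleGraph.Walk.support_ofSupport]
    exact hnd
  · intro v hv
    rw [SimpleGraph.Walk.support_ofSupport] at hv
    have h1 := hA v hv
    rw [List.head?_eq_some_head hne, Option.some.injEq] at h1
    constructor
    · intro h
      rcases h1 with h1 | h1
      · exact h1.2.symm
      · exact absurd h h1.1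
    · intro h
      rcases h1 with h1 | h1
      · exact h1.1
      · exact absurd h.symm h1.2
  · intro v hv
    rw [SimpleGraph.Walk.support_ofSupport] at hv
    have h1 := hZ v hv
    rw [List.getLast?_eq_some_getLast hne, Option.some.injEq] at h1
    constructor
    · intro h
      rcases h1 with h1 | h1
      · exact h1.2.symm
      · exact absurd h h1.1
    · intro h
      rcases h1 with h1 | h1
      · exact h1.1
      · exact absurd h.symm h1.2

theorem valid_ne {I : Inst} (hV : Valid I) {u v : ℕ} (h : (u, v) ∈ I.1.2) : u ≠ v := (hV.1 _ h).2.2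

theorem farL_iff {I : Inst} (hV : Valid I) (l l' : List ℕ) :
    FarL I l l' ↔ ∀ u ∈ l, ∀ v ∈ l', 3 ≤ (gr I.1.2).edist u v := by
  unfold FarL
  refine forall₂_congr fun u _ => forall₂_congr fun v _ => ?_
  rw [edist_iff]
  constructor
  · rintro ⟨⟨h1, h2, h3⟩, h4⟩
    refine ⟨h1, ?_, ?_⟩
    · intro h
      rcases (adj_gr.1 h).2 with h | h
      · exact h2 h
      · exact h3 h
    · rintro w ⟨h5, h6⟩
      have h5' := (adj_gr.1 h5).2
      have h6' := (adj_gr.1 h6).2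
      refine h4 w ?_ ⟨h5', h6'⟩
      rcases h5' with h | h
      · exact (hV.1 _ h).2.1
      · exact (hV.1 _ h).1
  · rintro ⟨h1, h2, h3⟩
    refine ⟨⟨h1, fun h => h2 (adj_gr.2 ⟨h1, Or.inl h⟩), fun h => h2 (adj_gr.2 ⟨h1, Or.inr h⟩)⟩, ?_⟩
    rintro w _ ⟨h5, h6⟩
    refine h3 w ⟨adj_gr.2 ⟨?_, h5⟩, adj_gr.2 ⟨?_, h6⟩⟩
    · rcases h5 with h | h
      · exact valid_ne hV h
      · exact (valid_ne hV h).symm
    · rcases h6 with h | h
      · exact valid_ne hV h
      · exact (valid_ne hV h).symm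

/-- The test. -/
def Test (I : Inst) (w : List ℕ × List ℕ × List ℕ) : Prop :=
  Valid I ∧ (AZList I w.1 ∧ AZList I w.2.1 ∧ AZList I w.2.2) ∧
    (FarL I w.1 w.2.1 ∧ FarL I w.1 w.2.2 ∧ FarL I w.2.1 w.2.2)

theorem pp_valid' : PP Valid := by
  unfold Valid
  refine PP.and ?_ (PP.and ?_ ?_)
  · exact PP.ball (r := fun (I : Inst) (e : ℕ × ℕ) => e.1 ∈ I.1.1 ∧ e.2 ∈ I.1.1 ∧ e.1 ≠ e.2)
      (by fun_prop) (PP.and (PP.mem (by fun_prop) (by fun_prop)) (PP.and
        (PP.mem (by fun_prop) (by fun_prop)) (PP.ne (by fun_prop) (by fun_prop))))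
  · exact PP.ball (r := fun (I : Inst) (e : ℕ) => e ∈ I.1.1) (by fun_prop)
      (PP.mem (by fun_prop) (by fun_prop))
  · exact PP.ball (r := fun (I : Inst) (e : ℕ) => e ∈ I.1.1) (by fun_prop)
      (PP.mem (by fun_prop) (by fun_prop))

theorem pp_azList : PP (fun x : Inst × List ℕ => AZList x.1 x.2) := by
  unfold AZList
  have hg : NPC.Poly (fun x : Inst × List ℕ => x.2.getLast?) := getLast?_poly (by fun_prop)
  have hg' : NPC.Poly (fun x : (Inst × List ℕ) × ℕ => x.1.2.getLast?) := getLast?_poly (by fun_prop)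
  refine PP.and (PP.and (PP.ne (by fun_prop) (by fun_prop)) ?_) (PP.and (pp_nodup (by fun_prop))
    (PP.and ?_ ?_))
  · exact PP.ball (l := fun x : Inst × List ℕ => x.2.zip x.2.tail)
      (r := fun x p => p.1 ≠ p.2 ∧ ((p.1, p.2) ∈ x.1.1.2 ∨ (p.2, p.1) ∈ x.1.1.2))
      (by fun_prop) (PP.and (PP.ne (by fun_prop) (by fun_prop))
        (PP.or (PP.mem (by fun_prop) (by fun_prop)) (PP.mem (by fun_prop) (by fun_prop))))
  · exact PP.ball (l := fun x : Inst × List ℕ => x.2)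
      (r := fun x v => (v ∈ x.1.2.1 ∧ x.2.head? = some v) ∨ (¬ v ∈ x.1.2.1 ∧ ¬ x.2.head? = some v))
      (by fun_prop)
      (PP.or (PP.and (PP.mem (by fun_prop) (by fun_prop)) (PP.eq (by fun_prop) (by fun_prop)))
        (PP.and (PP.mem (by fun_prop) (by fun_prop)).not (PP.eq (by fun_prop) (by fun_prop)).not))
  · exact PP.ball (l := fun x : Inst × List ℕ => x.2)
      (r := fun x v => (v ∈ x.1.2.2 ∧ x.2.getLast? = some v) ∨
        (¬ v ∈ x.1.2.2 ∧ ¬ x.2.getLast? = some v))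
      (by fun_prop)
      (PP.or (PP.and (PP.mem (by fun_prop) (by fun_prop)) (PP.eq hg' (by fun_prop)))
        (PP.and (PP.mem (by fun_prop) (by fun_prop)).not (PP.eq hg' (by fun_prop)).not))

theorem pp_farL : PP (fun x : Inst × (List ℕ × List ℕ) => FarL x.1 x.2.1 x.2.2) := by
  unfold FarL
  refine PP.ball (l := fun x : Inst × (List ℕ × List ℕ) => x.2.1)
    (r := fun x u => ∀ v ∈ x.2.2, (u ≠ v ∧ (u, v) ∉ x.1.1.2 ∧ (v, u) ∉ x.1.1.2) ∧
    ∀ w ∈ x.1.1.1, ¬ (((u, w) ∈ x.1.1.2 ∨ (w, u) ∈ x.1.1.2) ∧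
      ((w, v) ∈ x.1.1.2 ∨ (v, w) ∈ x.1.1.2))) (by fun_prop) ?_
  refine PP.ball (l := fun y : (Inst × (List ℕ × List ℕ)) × ℕ => y.1.2.2)
    (r := fun y v => (y.2 ≠ v ∧ (y.2, v) ∉ y.1.1.1.2 ∧ (v, y.2) ∉ y.1.1.1.2) ∧
    ∀ w ∈ y.1.1.1.1, ¬ (((y.2, w) ∈ y.1.1.1.2 ∨ (w, y.2) ∈ y.1.1.1.2) ∧
      ((w, v) ∈ y.1.1.1.2 ∨ (v, w) ∈ y.1.1.1.2))) (by fun_prop) ?_
  refine PP.and (PP.and (PP.ne (by fun_prop) (by fun_prop))
    (PP.and (PP.mem (by fun_prop) (by fun_prop)).not (PP.mem (by fun_prop) (by fun_prop)).not)) ?_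
  exact PP.ball (l := fun z : ((Inst × (List ℕ × List ℕ)) × ℕ) × ℕ => z.1.1.1.1.1)
    (r := fun z w => ¬ (((z.1.2, w) ∈ z.1.1.1.1.2 ∨ (w, z.1.2) ∈ z.1.1.1.1.2) ∧
      ((w, z.2) ∈ z.1.1.1.1.2 ∨ (z.2, w) ∈ z.1.1.1.1.2))) (by fun_prop)
    (PP.and (PP.or (PP.mem (by fun_prop) (by fun_prop)) (PP.mem (by fun_prop) (by fun_prop)))
      (PP.or (PP.mem (by fun_prop) (by fun_prop)) (PP.mem (by fun_prop) (by fun_prop)))).not

theorem pp_test : PP (fun x : Inst × (List ℕ × List ℕ × List ℕ) => Test x.1 x.2) := by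
  unfold Test
  refine PP.and (pp_valid'.comp (by fun_prop)) (PP.and (PP.and ?_ (PP.and ?_ ?_))
    (PP.and ?_ (PP.and ?_ ?_)))
  · exact pp_azList.comp (f := fun x : Inst × (List ℕ × List ℕ × List ℕ) => (x.1, x.2.1)) (by fun_prop)
  · exact pp_azList.comp (f := fun x : Inst × (List ℕ × List ℕ × List ℕ) => (x.1, x.2.2.1)) (by fun_prop)
  · exact pp_azList.comp (f := fun x : Inst × (List ℕ × List ℕ × List ℕ) => (x.1, x.2.2.2)) (by fun_prop)
  · exact pp_farL.comp (f := fun x : Inst × (List ℕ × List ℕ × List ℕ) => (x.1, (x.2.1, x.2.2.1))) (by fun_prop)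
  · exact pp_farL.comp (f := fun x : Inst × (List ℕ × List ℕ × List ℕ) => (x.1, (x.2.1, x.2.2.2))) (by fun_prop)
  · exact pp_farL.comp (f := fun x : Inst × (List ℕ × List ℕ × List ℕ) => (x.1, (x.2.2.1, x.2.2.2))) (by fun_prop)

theorem sz_perm {β : Type} [TEnc β] {l l' : List β} (h : l.Perm l') : sz l = sz l' := by
  induction h with
  | nil => rfl
  | cons a _ ih => simp only [sz_list_cons, ih]
  | swap a b l => simp only [sz_list_cons]; omega
  | trans _ _ ih1 ih2 => rw [ih1, ih2]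

theorem sz_subset {β : Type} [TEnc β] {l l' : List β} (hnd : l.Nodup) (h : ∀ x ∈ l, x ∈ l') :
    sz l ≤ sz l' := by
  obtain ⟨l'', h1, h2⟩ := List.subperm_of_subset hnd h
  rw [← sz_perm h1]
  exact RB.sz_sublist h2

theorem support_mem {I : Inst} (hV : Valid I) {a z : ℕ} {p : (gr I.1.2).Walk a z}
    (h : IsAZPath I.2.1 I.2.2 p) : ∀ v ∈ p.support, v ∈ I.1.1 := by
  intro v hv
  have hedge : ∀ {u w : ℕ}, (gr I.1.2).Adj u w → w ∈ I.1.1 := by
    intro u w huw
    rcases (adj_gr.1 huw).2 with h | h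
    · exact (hV.1 _ h).2.1
    · exact (hV.1 _ h).1
  have hgen : ∀ {a z : ℕ} (p : (gr I.1.2).Walk a z), a ∈ I.1.1 → ∀ v ∈ p.support, v ∈ I.1.1 := by
    intro a z p
    induction p with
    | nil =>
      intro ha v hv
      rw [SimpleGraph.Walk.support_nil, List.mem_singleton] at hv
      rwa [hv]
    | cons h' p ih =>
      intro ha v hv
      rw [SimpleGraph.Walk.support_cons, List.mem_cons] at hv
      rcases hv with rfl | hv
      · exact ha
      · exact ih (hedge h') v hv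
  exact hgen p (hV.2.1 _ ((h.2.1 _ p.start_mem_support).2 rfl)) v hv

theorem inNPP_MM3 : InNPP MM3 := by
  obtain ⟨R, hR, hR'⟩ := pp_test
  refine inNPP_of hR (Polynomial.C 3 * Polynomial.X + Polynomial.C 2) ?_
  intro I
  simp only [Polynomial.eval_add, Polynomial.eval_mul, Polynomial.eval_C, Polynomial.eval_X, hR']
  constructor
  · rintro ⟨hV, a, z, p, hp, hfar⟩
    refine ⟨((p 0).support, (p 1).support, (p 2).support), ?_, hV,
      ⟨azList_of (hp 0), azList_of (hp 1), azList_of (hp 2)⟩,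
      (farL_iff hV _ _).2 (hfar 0 1 (by decide)), (farL_iff hV _ _).2 (hfar 0 2 (by decide)),
      (farL_iff hV _ _).2 (hfar 1 2 (by decide))⟩
    have h : ∀ i, sz (p i).support ≤ sz I := by
      intro i
      have h1 := sz_subset (hp i).1.support_nodup (support_mem hV (hp i))
      obtain ⟨⟨V, E⟩, A, Z⟩ := I
      simp only [sz_pair]
      simp only at h1
      omega
    have h0 := h 0
    have h1 := h 1
    have h2 := h 2
    simp only [sz_pair]
    omega
  · rintro ⟨⟨l0, l1, l2⟩, -, hV, ⟨h0, h1, h2⟩, hf01, hf02, hf12⟩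
    simp only at h0 h1 h2 hf01 hf02 hf12
    rw [farL_iff hV] at hf01 hf02 hf12
    obtain ⟨a0, z0, p0, hp0, rfl⟩ := of_azList h0
    obtain ⟨a1, z1, p1, hp1, rfl⟩ := of_azList h1
    obtain ⟨a2, z2, p2, hp2, rfl⟩ := of_azList h2
    refine ⟨hV, ![a0, a1, a2], ![z0, z1, z2], fun i => match i with
      | 0 => p0
      | 1 => p1
      | 2 => p2, ?_, ?_⟩
    · intro i
      fin_cases i
      · exact hp0
      · exact hp1
      · exact hp2
    · intro i j hij u hu v hv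
      fin_cases i <;> fin_cases j
      · exact absurd rfl hij
      · exact hf01 u hu v hv
      · exact hf02 u hu v hv
      · exact SimpleGraph.edist_comm.trans_ge (hf01 v hv u hu)
      · exact absurd rfl hij
      · exact hf12 u hu v hv
      · exact SimpleGraph.edist_comm.trans_ge (hf02 v hv u hu)
      · exact SimpleGraph.edist_comm.trans_ge (hf12 v hv u hu)
      · exact absurd rfl hij

end Pool.Agent.Q321.MM
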