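import Pool.Agent.Q321.MM.Sub
import Pool.Agent.H634R2.Clique
import Pool.Agent.NPC.Sat2

/-!
# From 3SAT to two far-apart paths
-/

namespace Pool.Agent.Q321.MM

open Pool.Agent.NPC Pool.Agent.NPC.H634R2

/-- Formulas. -/
abbrev Φ : Type := List (Lit ℕ × Lit ℕ × Lit ℕ)

/-- The vertex of the first path that is next to the truth value `b` of the variable `i`. -/
def ch (b : Bool) (i : ℕ) : ℕ := if b then 8 * i + 1 else 8 * i + 2

/-- The vertex of the second path that is next to the truth value `b` of the variable `i`. -/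
def ch' (b : Bool) (i : ℕ) : ℕ := if b then 8 * i + 4 else 8 * i + 5

/-- The edges of the variable gadget. -/
def varE (i : ℕ) : List (ℕ × ℕ) :=
  [(8 * i, 8 * i + 1), (8 * i, 8 * i + 2), (8 * i + 1, 8 * (i + 1)), (8 * i + 2, 8 * (i + 1)),
   (8 * i + 3, 8 * i + 4), (8 * i + 3, 8 * i + 5), (8 * i + 4, 8 * (i + 1) + 3),
   (8 * i + 5, 8 * (i + 1) + 3), (8 * i + 1, 8 * i + 5), (8 * i + 2, 8 * i + 4)]

/-- The edges at the vertex of an occurrence of a literal. -/
def litE (n : ℕ) (x : Lit ℕ × ℕ) : List (ℕ × ℕ) :=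
  [(8 * (n + x.2 / 3), 8 * x.2 + 6), (8 * x.2 + 6, 8 * (n + x.2 / 3 + 1)),
   (8 * x.2 + 6, ch (!x.1.1) x.1.2), (8 * x.2 + 6, ch' (!x.1.1) x.1.2)]

/-- The edges of the base graph. -/
def L (φ : Φ) : List (ℕ × ℕ) :=
  (List.range (3 * φ.length)).flatMap varE ++ (lits φ).flatMap (litE (3 * φ.length))

/-- The number of branch vertices. -/
def N (φ : Φ) : ℕ := 8 * (4 * φ.length + 1)

/-- The instance. -/
def red (φ : Φ) : Inst :=
  ((List.range (N φ + (L φ).length), subE (N φ) (L φ)),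
    ([0, 3, 7], [8 * (4 * φ.length), 8 * (3 * φ.length) + 3, 7]))

theorem mem_L {φ : Φ} {e : ℕ × ℕ} : e ∈ L φ ↔ (∃ i < 3 * φ.length, e ∈ varE i) ∨
    ∃ x ∈ lits φ, e ∈ litE (3 * φ.length) x := by
  unfold L
  simp only [List.mem_append, List.mem_flatMap, List.mem_range]

theorem lits_lt {φ : Φ} {x : Lit ℕ × ℕ} (h : x ∈ lits φ) : x.2 < 3 * φ.length := by
  obtain ⟨c, hc, -⟩ := mem_lits.1 (show (x.1, x.2) ∈ lits φ from h)
  obtain ⟨h1, -⟩ := List.getElem?_eq_some_iff.1 hc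
  omega

theorem lits_var {φ : Φ} (hB : Bounded3 φ) {x : Lit ℕ × ℕ} (h : x ∈ lits φ) :
    x.1.2 < 3 * φ.length := by
  obtain ⟨c, hc, h2⟩ := mem_lits.1 (show (x.1, x.2) ∈ lits φ from h)
  have hcm := List.mem_of_getElem? hc
  obtain ⟨b1, b2, b3⟩ := hB c hcm
  have h3 := List.mem_of_getElem? h2
  simp only [List.mem_cons, List.not_mem_nil, or_false] at h3
  rcases h3 with h3 | h3 | h3 <;> rw [h3] <;> assumption

theorem ch_lt {b : Bool} {i n : ℕ} (h : i < n) : ch b i < 8 * n := by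
  unfold ch; split <;> omega

theorem ch'_lt {b : Bool} {i n : ℕ} (h : i < n) : ch' b i < 8 * n := by
  unfold ch'; split <;> omega

theorem L_lt {φ : Φ} (hB : Bounded3 φ) : ∀ e ∈ L φ, e.1 < N φ ∧ e.2 < N φ := by
  intro e he
  unfold N
  rcases mem_L.1 he with ⟨i, hi, h⟩ | ⟨x, hx, h⟩
  · simp only [varE, List.mem_cons, List.not_mem_nil, or_false] at h
    rcases h with rfl | rfl | rfl | rfl | rfl | rfl | rfl | rfl | rfl | rfl <;>
      constructor <;> simp only <;> omega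
  · have h1 := lits_lt hx
    have h2 := lits_var hB hx
    have h3 := ch_lt (b := !x.1.1) h2
    have h4 := ch'_lt (b := !x.1.1) h2
    simp only [litE, List.mem_cons, List.not_mem_nil, or_false] at h
    rcases h with rfl | rfl | rfl | rfl <;> constructor <;> simp only <;> omega

theorem L_ne {φ : Φ} {e : ℕ × ℕ} (he : e ∈ L φ) : e.1 ≠ e.2 := by
  rcases mem_L.1 he with ⟨i, hi, h⟩ | ⟨x, hx, h⟩
  · simp only [varE, List.mem_cons, List.not_mem_nil, or_false] at h
    rcases h with rfl | rfl | rfl | rfl | rfl | rfl | rfl | rfl | rfl | rfl <;>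
      simp only [ne_eq] <;> omega
  · simp only [litE, List.mem_cons, List.not_mem_nil, or_false] at h
    unfold ch ch' at h
    rcases h with rfl | rfl | rfl | rfl
    · simp only [ne_eq]; omega
    · simp only [ne_eq]; omega
    · simp only [ne_eq]; split <;> omega
    · simp only [ne_eq]; split <;> omega

theorem valid_red {φ : Φ} (hB : Bounded3 φ) : Valid (red φ) := by
  have hL := L_lt hB
  refine ⟨?_, ?_, ?_⟩
  · rintro ⟨x, y⟩ he
    simp only [red, List.mem_range] at he ⊢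
    obtain ⟨i, u, v, hi, h⟩ := mem_subE.1 he
    have h1 := lt_of_get hL hi
    obtain ⟨h2, -⟩ := List.getElem?_eq_some_iff.1 hi
    omega
  · intro a ha
    simp only [red, List.mem_cons, List.not_mem_nil, or_false, List.mem_range, N] at ha ⊢
    omega
  · intro a ha
    simp only [red, List.mem_cons, List.not_mem_nil, or_false, List.mem_range, N] at ha ⊢
    omega

/-! ### From assignments to paths -/

section Forward

variable (φ : Φ) (τ : ℕ → Bool)

/-- The branch vertices of the first path. -/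
def S1 : Set ℕ :=
  {x | (∃ i ≤ 4 * φ.length, x = 8 * i) ∨ (∃ i < 3 * φ.length, x = ch (τ i) i) ∨
    ∃ y ∈ lits φ, x = 8 * y.2 + 6 ∧ τ y.1.2 = y.1.1}

/-- The branch vertices of the second path. -/
def S2 : Set ℕ :=
  {x | (∃ i ≤ 3 * φ.length, x = 8 * i + 3) ∨ ∃ i < 3 * φ.length, x = ch' (τ i) i}

theorem ch_mod (b : Bool) (i : ℕ) : (ch b i % 8 = 1 ∨ ch b i % 8 = 2) ∧ ch b i / 8 = i := by
  unfold ch; split <;> omega

theorem ch'_mod (b : Bool) (i : ℕ) : (ch' b i % 8 = 4 ∨ ch' b i % 8 = 5) ∧ ch' b i / 8 = i := by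
  unfold ch'; split <;> omega

theorem ch_inj {b c : Bool} {i j : ℕ} (h : ch b i = ch c j) : b = c ∧ i = j := by
  unfold ch at h
  cases b <;> cases c <;> simp at h ⊢ <;> omega

theorem ch'_inj {b c : Bool} {i j : ℕ} (h : ch' b i = ch' c j) : b = c ∧ i = j := by
  unfold ch' at h
  cases b <;> cases c <;> simp at h ⊢ <;> omega

theorem S1_mod {x : ℕ} (h : x ∈ S1 φ τ) : x % 8 = 0 ∨ x % 8 = 1 ∨ x % 8 = 2 ∨ x % 8 = 6 := by
  rcases h with ⟨i, -, rfl⟩ | ⟨i, -, rfl⟩ | ⟨y, -, rfl, -⟩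
  · omega
  · have := (ch_mod (τ i) i).1; omega
  · omega

theorem S2_mod {x : ℕ} (h : x ∈ S2 φ τ) : x % 8 = 3 ∨ x % 8 = 4 ∨ x % 8 = 5 := by
  rcases h with ⟨i, -, rfl⟩ | ⟨i, -, rfl⟩
  · omega
  · have := (ch'_mod (τ i) i).1; omega

theorem S1_ch {b : Bool} {i : ℕ} (h : ch b i ∈ S1 φ τ) : b = τ i := by
  rcases h with ⟨j, -, h⟩ | ⟨j, -, h⟩ | ⟨y, -, h, -⟩
  · have := (ch_mod b i).1; omega
  · obtain ⟨rfl, rfl⟩ := ch_inj h; rfl
  · have := (ch_mod b i).1; omega

theorem S2_ch {b : Bool} {i : ℕ} (h : ch' b i ∈ S2 φ τ) : b = τ i := by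
  rcases h with ⟨j, -, h⟩ | ⟨j, -, h⟩
  · have := (ch'_mod b i).1; omega
  · obtain ⟨rfl, rfl⟩ := ch'_inj h; rfl

theorem S1_lit {y : Lit ℕ × ℕ} (hy : y ∈ lits φ) (h : 8 * y.2 + 6 ∈ S1 φ τ) : τ y.1.2 = y.1.1 := by
  rcases h with ⟨j, -, h⟩ | ⟨j, -, h⟩ | ⟨z, hz, h, h'⟩
  · omega
  · have := (ch_mod (τ j) j).1; omega
  · obtain ⟨l, i⟩ := y
    obtain ⟨l', i'⟩ := z
    simp only at h h' ⊢
    have : i = i' := by omega
    subst this
    rw [lits_unique hy hz]
    exact h'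

theorem no_edge {x y : ℕ} (hx : x ∈ S1 φ τ) (hy : y ∈ S2 φ τ) : (x, y) ∉ L φ ∧ (y, x) ∉ L φ := by
  have hxm := S1_mod φ τ hx
  have hym := S2_mod φ τ hy
  constructor
  · intro h
    rcases mem_L.1 h with ⟨i, hi, h⟩ | ⟨z, hz, h⟩
    · simp only [varE, List.mem_cons, List.not_mem_nil, or_false, Prod.mk.injEq] at h
      rcases h with h | h | h | h | h | h | h | h | h | h
      iterate 8 (exfalso; omega)
      · obtain ⟨rfl, rfl⟩ := h
        have h1 := S1_ch φ τ (b := true) (i := i) (by simpa [ch] using hx)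
        have h2 := S2_ch φ τ (b := false) (i := i) (by simpa [ch'] using hy)
        rw [← h1] at h2
        simp at h2
      · obtain ⟨rfl, rfl⟩ := h
        have h1 := S1_ch φ τ (b := false) (i := i) (by simpa [ch] using hx)
        have h2 := S2_ch φ τ (b := true) (i := i) (by simpa [ch'] using hy)
        rw [← h1] at h2
        simp at h2
    · simp only [litE, List.mem_cons, List.not_mem_nil, or_false, Prod.mk.injEq] at h
      rcases h with h | h | h | h
      · omega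
      · omega
      · have := (ch_mod (!z.1.1) z.1.2).1
        omega
      · obtain ⟨rfl, rfl⟩ := h
        have h1 := S1_lit φ τ hz hx
        have h2 := S2_ch φ τ hy
        rw [h1] at h2
        cases z.1.1 <;> simp at h2
  · intro h
    rcases mem_L.1 h with ⟨i, hi, h⟩ | ⟨z, hz, h⟩
    · simp only [varE, List.mem_cons, List.not_mem_nil, or_false, Prod.mk.injEq] at h
      omega
    · simp only [litE, List.mem_cons, List.not_mem_nil, or_false, Prod.mk.injEq] at h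
      have := (ch_mod (!z.1.1) z.1.2).1
      have := (ch'_mod (!z.1.1) z.1.2).1
      omega

variable {φ τ}

theorem conn1_var (hB : Bounded3 φ) {i : ℕ} (hi : i < 3 * φ.length) :
    Conn (N φ) (L φ) (S1 φ τ) (8 * i) (8 * (i + 1)) := by
  have h0 : 8 * i ∈ S1 φ τ := Or.inl ⟨i, by omega, rfl⟩
  have h2 : 8 * (i + 1) ∈ S1 φ τ := Or.inl ⟨i + 1, by omega, rfl⟩
  have h1 : ch (τ i) i ∈ S1 φ τ := Or.inr (Or.inl ⟨i, hi, rfl⟩)
  refine (Conn.edge (L_lt hB) h0 h1 (Or.inl (mem_L.2 (Or.inl ⟨i, hi, ?_⟩)))).trans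
    (Conn.edge (L_lt hB) h1 h2 (Or.inl (mem_L.2 (Or.inl ⟨i, hi, ?_⟩)))) <;>
    cases τ i <;> simp [varE, ch]

theorem conn2_var (hB : Bounded3 φ) {i : ℕ} (hi : i < 3 * φ.length) :
    Conn (N φ) (L φ) (S2 φ τ) (8 * i + 3) (8 * (i + 1) + 3) := by
  have h0 : 8 * i + 3 ∈ S2 φ τ := Or.inl ⟨i, by omega, rfl⟩
  have h2 : 8 * (i + 1) + 3 ∈ S2 φ τ := Or.inl ⟨i + 1, by omega, rfl⟩
  have h1 : ch' (τ i) i ∈ S2 φ τ := Or.inr ⟨i, hi, rfl⟩
  refine (Conn.edge (L_lt hB) h0 h1 (Or.inl (mem_L.2 (Or.inl ⟨i, hi, ?_⟩)))).trans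
    (Conn.edge (L_lt hB) h1 h2 (Or.inl (mem_L.2 (Or.inl ⟨i, hi, ?_⟩)))) <;>
    cases τ i <;> simp [varE, ch']

theorem conn1_cl (hB : Bounded3 φ) {j : ℕ} (hj : j < φ.length)
    (hsat : ∃ x ∈ lits φ, x.2 / 3 = j ∧ τ x.1.2 = x.1.1) :
    Conn (N φ) (L φ) (S1 φ τ) (8 * (3 * φ.length + j)) (8 * (3 * φ.length + j + 1)) := by
  obtain ⟨x, hx, rfl, ht⟩ := hsat
  have h0 : 8 * (3 * φ.length + x.2 / 3) ∈ S1 φ τ := Or.inl ⟨_, by omega, rfl⟩
  have h2 : 8 * (3 * φ.length + x.2 / 3 + 1) ∈ S1 φ τ := Or.inl ⟨_, by omega, rfl⟩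
  have h1 : 8 * x.2 + 6 ∈ S1 φ τ := Or.inr (Or.inr ⟨x, hx, rfl, ht⟩)
  exact (Conn.edge (L_lt hB) h0 h1 (Or.inl (mem_L.2 (Or.inr ⟨x, hx, by simp [litE]⟩)))).trans
    (Conn.edge (L_lt hB) h1 h2 (Or.inl (mem_L.2 (Or.inr ⟨x, hx, by simp [litE]⟩))))

theorem conn1 (hB : Bounded3 φ)
    (hsat : ∀ j < φ.length, ∃ x ∈ lits φ, x.2 / 3 = j ∧ τ x.1.2 = x.1.1) :
    Conn (N φ) (L φ) (S1 φ τ) 0 (8 * (4 * φ.length)) := by
  have h1 : ∀ i ≤ 3 * φ.length, Conn (N φ) (L φ) (S1 φ τ) 0 (8 * i) := by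
    intro i
    induction i with
    | zero => exact fun _ => Conn.refl (Or.inl ⟨0, by omega, rfl⟩)
    | succ i ih => exact fun h => (ih (by omega)).trans (conn1_var hB (by omega))
  have h2 : ∀ j ≤ φ.length, Conn (N φ) (L φ) (S1 φ τ) 0 (8 * (3 * φ.length + j)) := by
    intro j
    induction j with
    | zero => exact fun _ => h1 _ le_rfl
    | succ j ih => exact fun h => (ih (by omega)).trans (conn1_cl hB (by omega) (hsat j (by omega)))
  have h3 := h2 φ.length le_rfl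
  rwa [show 3 * φ.length + φ.length = 4 * φ.length by ring] at h3

theorem conn2 (hB : Bounded3 φ) : Conn (N φ) (L φ) (S2 φ τ) 3 (8 * (3 * φ.length) + 3) := by
  have h1 : ∀ i ≤ 3 * φ.length, Conn (N φ) (L φ) (S2 φ τ) 3 (8 * i + 3) := by
    intro i
    induction i with
    | zero => exact fun _ => Conn.refl (Or.inl ⟨0, by omega, rfl⟩)
    | succ i ih => exact fun h => (ih (by omega)).trans (conn2_var hB (by omega))
  exact h1 _ le_rfl

theorem S1_lt : ∀ x ∈ S1 φ τ, x < N φ := by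
  rintro x (⟨i, hi, rfl⟩ | ⟨i, hi, rfl⟩ | ⟨y, hy, rfl, -⟩)
  · unfold N; omega
  · have := ch_lt (b := τ i) hi
    unfold N; omega
  · have := lits_lt hy
    unfold N; omega

theorem S2_lt : ∀ x ∈ S2 φ τ, x < N φ := by
  rintro x (⟨i, hi, rfl⟩ | ⟨i, hi, rfl⟩)
  · unfold N; omega
  · have := ch'_lt (b := τ i) hi
    unfold N; omega

/-- A connected set with a single vertex in `A` and a single vertex in `Z` contains an `A`-`Z`
path. -/
theorem path_of_conn {S : Set ℕ} {A Z : List ℕ} {a z : ℕ} (h : Conn (N φ) (L φ) S a z)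
    (hA : ∀ v ∈ hullS (N φ) (L φ) S, v ∈ A ↔ v = a)
    (hZ : ∀ v ∈ hullS (N φ) (L φ) S, v ∈ Z ↔ v = z) :
    ∃ p : (gr (subE (N φ) (L φ))).Walk a z, IsAZPath A Z p ∧
      ∀ w ∈ p.support, w ∈ hullS (N φ) (L φ) S := by
  classical
  obtain ⟨p, hp⟩ := h
  have hsub : ∀ w ∈ p.bypass.support, w ∈ hullS (N φ) (L φ) S :=
    fun w hw => hp w (p.support_bypass_subset hw)
  exact ⟨p.bypass, ⟨p.bypass_isPath, fun v hv => hA v (hsub v hv), fun v hv => hZ v (hsub v hv)⟩,
    hsub⟩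

theorem seven_not_mem {φ : Φ} {y : ℕ} : (7, y) ∉ L φ ∧ (y, 7) ∉ L φ := by
  constructor <;>
  · intro h
    rcases mem_L.1 h with ⟨i, hi, h⟩ | ⟨z, hz, h⟩
    · simp only [varE, List.mem_cons, List.not_mem_nil, or_false, Prod.mk.injEq] at h
      omega
    · simp only [litE, List.mem_cons, List.not_mem_nil, or_false, Prod.mk.injEq] at h
      have := (ch_mod (!z.1.1) z.1.2).1
      have := (ch'_mod (!z.1.1) z.1.2).1
      omega

theorem hull_small {S : Set ℕ} {v : ℕ} (h : v ∈ hullS (N φ) (L φ) S) (hv : v < N φ) : v ∈ S := by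
  rcases h with h | ⟨i, x, y, -, h, -⟩
  · exact h
  · omega

theorem forward (hB : Bounded3 φ) (hne : φ ≠ [])
    (hsat : ∀ j < φ.length, ∃ x ∈ lits φ, x.2 / 3 = j ∧ τ x.1.2 = x.1.1) : MM3 (red φ) := by
  have hpos : 0 < φ.length := List.length_pos_iff.2 hne
  have hN7 : 7 < N φ := by unfold N; omega
  refine ⟨valid_red hB, ?_⟩
  have hL := L_lt hB
  have A1 : ∀ v ∈ hullS (N φ) (L φ) (S1 φ τ), v ∈ [0, 3, 7] ↔ v = 0 := by
    intro v hv
    simp only [List.mem_cons, List.not_mem_nil, or_false]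
    constructor
    · intro h
      have := S1_mod φ τ (hull_small hv (by omega))
      omega
    · intro h; exact Or.inl h
  have Z1 : ∀ v ∈ hullS (N φ) (L φ) (S1 φ τ),
      v ∈ [8 * (4 * φ.length), 8 * (3 * φ.length) + 3, 7] ↔ v = 8 * (4 * φ.length) := by
    intro v hv
    simp only [List.mem_cons, List.not_mem_nil, or_false]
    constructor
    · intro h
      have := S1_mod φ τ (hull_small hv (by unfold N; omega))
      omega
    · intro h; exact Or.inl h
  have A2 : ∀ v ∈ hullS (N φ) (L φ) (S2 φ τ), v ∈ [0, 3, 7] ↔ v = 3 := by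
    intro v hv
    simp only [List.mem_cons, List.not_mem_nil, or_false]
    constructor
    · intro h
      have := S2_mod φ τ (hull_small hv (by omega))
      omega
    · intro h; exact Or.inr (Or.inl h)
  have Z2 : ∀ v ∈ hullS (N φ) (L φ) (S2 φ τ),
      v ∈ [8 * (4 * φ.length), 8 * (3 * φ.length) + 3, 7] ↔ v = 8 * (3 * φ.length) + 3 := by
    intro v hv
    simp only [List.mem_cons, List.not_mem_nil, or_false]
    constructor
    · intro h
      have := S2_mod φ τ (hull_small hv (by unfold N; omega))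
      omega
    · intro h; exact Or.inr (Or.inl h)
  have h3 : ∀ v ∈ hullS (N φ) (L φ) ({7} : Set ℕ), v = 7 := by
    rintro v (h | ⟨i, x, y, hi, -, hx, -⟩)
    · exact h
    · have hm := List.mem_of_getElem? hi
      rw [Set.mem_singleton_iff] at hx
      subst hx
      exact absurd hm seven_not_mem.1
  obtain ⟨p1, hp1, hs1⟩ := path_of_conn (conn1 hB hsat) A1 Z1
  obtain ⟨p2, hp2, hs2⟩ := path_of_conn (conn2 (τ := τ) hB) A2 Z2
  obtain ⟨p3, hp3, hs3⟩ := path_of_conn (Conn.refl (N := N φ) (L := L φ) (S := {7}) (x := 7) rfl)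
    (A := [0, 3, 7]) (Z := [8 * (4 * φ.length), 8 * (3 * φ.length) + 3, 7])
    (fun v hv => by rw [h3 v hv]; simp) (fun v hv => by rw [h3 v hv]; simp)
  have S1l := S1_lt (φ := φ) (τ := τ)
  have S2l := S2_lt (φ := φ) (τ := τ)
  have S3l : ∀ x ∈ ({7} : Set ℕ), x < N φ := by rintro x rfl; exact hN7
  have f12 : ∀ u ∈ p1.support, ∀ v ∈ p2.support, 3 ≤ (gr (subE (N φ) (L φ))).edist u v :=
    fun u hu v hv => far_hull hL S1l S2l (fun x h h' => by
      have := S1_mod φ τ h; have := S2_mod φ τ h'; omega) (fun x hx y hy => no_edge φ τ hx hy)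
      u (hs1 u hu) v (hs2 v hv)
  have f13 : ∀ u ∈ p1.support, ∀ v ∈ p3.support, 3 ≤ (gr (subE (N φ) (L φ))).edist u v :=
    fun u hu v hv => far_hull hL S1l S3l (fun x h h' => by
      have := S1_mod φ τ h; rw [Set.mem_singleton_iff] at h'; omega)
      (fun x _ y hy => by rw [Set.mem_singleton_iff] at hy; subst hy
                          exact ⟨seven_not_mem.2, seven_not_mem.1⟩)
      u (hs1 u hu) v (hs3 v hv)
  have f23 : ∀ u ∈ p2.support, ∀ v ∈ p3.support, 3 ≤ (gr (subE (N φ) (L φ))).edist u v :=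
    fun u hu v hv => far_hull hL S2l S3l (fun x h h' => by
      have := S2_mod φ τ h; rw [Set.mem_singleton_iff] at h'; omega)
      (fun x _ y hy => by rw [Set.mem_singleton_iff] at hy; subst hy
                          exact ⟨seven_not_mem.2, seven_not_mem.1⟩)
      u (hs2 u hu) v (hs3 v hv)
  refine ⟨![0, 3, 7], ![8 * (4 * φ.length), 8 * (3 * φ.length) + 3, 7],
    fun i => match i with
      | 0 => p1
      | 1 => p2
      | 2 => p3, ?_, ?_⟩
  · intro i
    fin_cases i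
    · exact hp1
    · exact hp2
    · exact hp3
  · intro i j hij u hu v hv
    fin_cases i <;> fin_cases j
    · exact absurd rfl hij
    · exact f12 u hu v hv
    · exact f13 u hu v hv
    · exact SimpleGraph.edist_comm.trans_ge (f12 v hv u hu)
    · exact absurd rfl hij
    · exact f23 u hu v hv
    · exact SimpleGraph.edist_comm.trans_ge (f13 v hv u hu)
    · exact SimpleGraph.edist_comm.trans_ge (f23 v hv u hu)
    · exact absurd rfl hij

end Forward

end Pool.Agent.Q321.MM
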