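import Pool.Agent.Q321.MM.Defs
import Mathlib.Combinatorics.SimpleGraph.Metric

/-!
# Subdivisions
-/

namespace Pool.Agent.Q321.MM

theorem edist_iff {V : Type*} (G : SimpleGraph V) (u v : V) : 3 ≤ G.edist u v ↔
    u ≠ v ∧ ¬ G.Adj u v ∧ ∀ w, ¬ (G.Adj u w ∧ G.Adj w v) := by
  constructor
  · intro h
    refine ⟨?_, ?_, ?_⟩
    · rintro rfl
      rw [SimpleGraph.edist_self] at h
      exact absurd h (by norm_num)
    · intro h'
      have h1 := SimpleGraph.Walk.edist_le (SimpleGraph.Walk.cons h' SimpleGraph.Walk.nil)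
      have h2 := h.trans h1
      simp only [SimpleGraph.Walk.length_cons, SimpleGraph.Walk.length_nil] at h2
      exact absurd h2 (by norm_num)
    · rintro w ⟨h', h''⟩
      have h1 := SimpleGraph.Walk.edist_le
        (SimpleGraph.Walk.cons h' (SimpleGraph.Walk.cons h'' SimpleGraph.Walk.nil))
      have h2 := h.trans h1
      simp only [SimpleGraph.Walk.length_cons, SimpleGraph.Walk.length_nil] at h2
      exact absurd h2 (by norm_num)
  · rintro ⟨h0, h1, h2⟩
    by_contra hlt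
    rw [not_le] at hlt
    obtain ⟨p, hp⟩ := SimpleGraph.exists_walk_of_edist_ne_top (ne_top_of_lt hlt)
    rw [← hp] at hlt
    have hl : p.length < 3 := by exact_mod_cast hlt
    cases p with
    | nil => exact h0 rfl
    | cons h' p =>
      cases p with
      | nil => exact h1 h'
      | cons h'' p =>
        cases p with
        | nil => exact h2 _ ⟨h', h''⟩
        | cons h3 p =>
          simp only [SimpleGraph.Walk.length_cons] at hl
          omega

/-- The edges of the subdivision: the vertex `N + i` subdivides the edge number `i`. -/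
def subE (N : ℕ) (L : List (ℕ × ℕ)) : List (ℕ × ℕ) :=
  L.zipIdx.flatMap (fun x => [(x.1.1, N + x.2), (N + x.2, x.1.2)])

theorem mem_subE {N : ℕ} {L : List (ℕ × ℕ)} {x y : ℕ} : (x, y) ∈ subE N L ↔
    ∃ i u v, L[i]? = some (u, v) ∧ ((x = u ∧ y = N + i) ∨ (x = N + i ∧ y = v)) := by
  unfold subE
  simp only [List.mem_flatMap, List.mem_cons, List.not_mem_nil, or_false, Prod.mk.injEq]
  constructor
  · rintro ⟨⟨⟨u, v⟩, i⟩, h, h'⟩
    rw [List.mem_zipIdx_iff_getElem?] at h
    exact ⟨i, u, v, h, h'⟩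
  · rintro ⟨i, u, v, h, h'⟩
    exact ⟨((u, v), i), List.mem_zipIdx_iff_getElem?.2 h, h'⟩

section

variable {N : ℕ} {L : List (ℕ × ℕ)} (hN : ∀ e ∈ L, e.1 < N ∧ e.2 < N)

include hN

theorem lt_of_get {i u v : ℕ} (h : L[i]? = some (u, v)) : u < N ∧ v < N :=
  hN (u, v) (List.mem_of_getElem? h)

theorem adj_iff {x y : ℕ} : (gr (subE N L)).Adj x y ↔ ∃ i u v, L[i]? = some (u, v) ∧
    ((x = N + i ∧ (y = u ∨ y = v)) ∨ (y = N + i ∧ (x = u ∨ x = v))) := by
  unfold gr
  rw [SimpleGraph.fromRel_adj, mem_subE, mem_subE]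
  constructor
  · rintro ⟨-, ⟨i, u, v, h, h' | h'⟩ | ⟨i, u, v, h, h' | h'⟩⟩
    · exact ⟨i, u, v, h, Or.inr ⟨h'.2, Or.inl h'.1⟩⟩
    · exact ⟨i, u, v, h, Or.inl ⟨h'.1, Or.inr h'.2⟩⟩
    · exact ⟨i, u, v, h, Or.inl ⟨h'.2, Or.inl h'.1⟩⟩
    · exact ⟨i, u, v, h, Or.inr ⟨h'.1, Or.inr h'.2⟩⟩
  · rintro ⟨i, u, v, h, ⟨hx, hy | hy⟩ | ⟨hx, hy | hy⟩⟩
    · have := lt_of_get hN h
      exact ⟨by omega, Or.inr ⟨i, u, v, h, Or.inl ⟨hy, hx⟩⟩⟩
    · have := lt_of_get hN h
      exact ⟨by omega, Or.inl ⟨i, u, v, h, Or.inr ⟨hx, hy⟩⟩⟩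
    · have := lt_of_get hN h
      exact ⟨by omega, Or.inl ⟨i, u, v, h, Or.inl ⟨hy, hx⟩⟩⟩
    · have := lt_of_get hN h
      exact ⟨by omega, Or.inr ⟨i, u, v, h, Or.inr ⟨hx, hy⟩⟩⟩

/-- A walk in the subdivision that leaves a set of branch vertices runs along an edge leaving the
set. -/
theorem exit {a z : ℕ} (p : (gr (subE N L)).Walk a z) (D : Set ℕ) (ha : a ∈ D) (haN : a < N)
    (hz : z ∉ D) (hzN : z < N) : ∃ x ∈ D, ∃ v, v ∉ D ∧ x ∈ p.support ∧ v ∈ p.support ∧
      ((x, v) ∈ L ∨ (v, x) ∈ L) := by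
  obtain ⟨d, hd, h1, h2⟩ := p.exists_boundary_dart
    {y | (y < N ∧ y ∈ D ∧ y ∈ p.support) ∨ ∃ i u v, L[i]? = some (u, v) ∧ y = N + i ∧
      ((u ∈ D ∧ u ∈ p.support) ∨ (v ∈ D ∧ v ∈ p.support))}
    (Or.inl ⟨haN, ha, p.start_mem_support⟩)
    (by
      rintro (h | ⟨i, u, v, -, h, -⟩)
      · exact hz h.2.1
      · omega)
  have hs1 := p.dart_fst_mem_support_of_mem_darts hd
  have hs2 := p.dart_snd_mem_support_of_mem_darts hd
  obtain ⟨i, u, v, hi, h⟩ := (adj_iff hN).1 d.adj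
  have hlt := lt_of_get hN hi
  have hmem := List.mem_of_getElem? hi
  simp only [Set.mem_setOf_eq, not_or, not_and, not_exists] at h1 h2
  rcases h with ⟨hx, hy⟩ | ⟨hx, hy⟩
  · -- leaving a subdividing vertex
    have hyN : d.snd < N := by rcases hy with hy | hy <;> omega
    have hyD : d.snd ∉ D := fun h => h2.1 hyN h hs2
    rcases h1 with h1 | ⟨j, u', v', hj, hj', h1⟩
    · omega
    · have hij : i = j := by omega
      subst hij
      rw [hi] at hj
      obtain ⟨rfl, rfl⟩ : u = u' ∧ v = v' := by simpa using hj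
      rcases h1 with ⟨h1, h1'⟩ | ⟨h1, h1'⟩
      · rcases hy with hy | hy
        · exact absurd (hy ▸ h1) hyD
        · exact ⟨u, h1, v, hy ▸ hyD, h1', hy ▸ hs2, Or.inl hmem⟩
      · rcases hy with hy | hy
        · exact ⟨v, h1, u, hy ▸ hyD, h1', hy ▸ hs2, Or.inr hmem⟩
        · exact absurd (hy ▸ h1) hyD
  · -- leaving a branch vertex
    exfalso
    have hyN : d.fst < N := by rcases hy with hy | hy <;> omega
    rcases h1 with h1 | ⟨j, u', v', hj, hj', h1⟩
    · rcases hy with hy | hy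
      · exact (h2.2 i u v hi hx).1 (hy ▸ h1.2.1) (hy ▸ h1.2.2)
      · exact (h2.2 i u v hi hx).2 (hy ▸ h1.2.1) (hy ▸ h1.2.2)
    · omega

/-- Walks at distance at least three have no common branch vertex, and no edge joins them. -/
theorem far_base {a z a' z' : ℕ} (p : (gr (subE N L)).Walk a z) (q : (gr (subE N L)).Walk a' z')
    (h : ∀ u ∈ p.support, ∀ v ∈ q.support, 3 ≤ (gr (subE N L)).edist u v) :
    (∀ u ∈ p.support, u ∉ q.support) ∧ ∀ u v, (u, v) ∈ L ∨ (v, u) ∈ L → u ∈ p.support →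
      v ∉ q.support := by
  constructor
  · intro u hu hv
    exact ((edist_iff _ _ _).1 (h u hu u hv)).1 rfl
  · intro u v huv hu hv
    have h2 := ((edist_iff _ _ _).1 (h u hu v hv)).2.2
    rcases huv with huv | huv
    · obtain ⟨i, hi⟩ := List.mem_iff_getElem?.1 huv
      exact h2 (N + i) ⟨(adj_iff hN).2 ⟨i, u, v, hi, Or.inr ⟨rfl, Or.inl rfl⟩⟩,
        (adj_iff hN).2 ⟨i, u, v, hi, Or.inl ⟨rfl, Or.inr rfl⟩⟩⟩
    · obtain ⟨i, hi⟩ := List.mem_iff_getElem?.1 huv
      exact h2 (N + i) ⟨(adj_iff hN).2 ⟨i, v, u, hi, Or.inr ⟨rfl, Or.inr rfl⟩⟩,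
        (adj_iff hN).2 ⟨i, v, u, hi, Or.inl ⟨rfl, Or.inl rfl⟩⟩⟩

omit hN in
/-- The set of the branch vertices in `S` and of the subdividing vertices of the edges in `S`. -/
def hullS (N : ℕ) (L : List (ℕ × ℕ)) (S : Set ℕ) : Set ℕ :=
  {y | y ∈ S ∨ ∃ i u v, L[i]? = some (u, v) ∧ y = N + i ∧ u ∈ S ∧ v ∈ S}

/-- There is a walk from `x` to `y` inside the hull of `S`. -/
def Conn (N : ℕ) (L : List (ℕ × ℕ)) (S : Set ℕ) (x y : ℕ) : Prop :=
  ∃ p : (gr (subE N L)).Walk x y, ∀ w ∈ p.support, w ∈ hullS N L S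

omit hN in
theorem Conn.refl {S : Set ℕ} {x : ℕ} (h : x ∈ S) : Conn N L S x x :=
  ⟨SimpleGraph.Walk.nil, fun w hw => by
    rw [SimpleGraph.Walk.support_nil, List.mem_singleton] at hw
    exact Or.inl (hw ▸ h)⟩

omit hN in
theorem Conn.trans {S : Set ℕ} {x y z : ℕ} (h : Conn N L S x y) (h' : Conn N L S y z) :
    Conn N L S x z := by
  obtain ⟨p, hp⟩ := h
  obtain ⟨q, hq⟩ := h'
  refine ⟨p.append q, fun w hw => ?_⟩
  rw [SimpleGraph.Walk.mem_support_append_iff] at hw
  rcases hw with hw | hw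
  · exact hp w hw
  · exact hq w hw

theorem Conn.edge {S : Set ℕ} {x y : ℕ} (hx : x ∈ S) (hy : y ∈ S) (h : (x, y) ∈ L ∨ (y, x) ∈ L) :
    Conn N L S x y := by
  rcases h with h | h
  · obtain ⟨i, hi⟩ := List.mem_iff_getElem?.1 h
    have h1 : (gr (subE N L)).Adj x (N + i) := (adj_iff hN).2 ⟨i, x, y, hi, Or.inr ⟨rfl, Or.inl rfl⟩⟩
    have h2 : (gr (subE N L)).Adj (N + i) y := (adj_iff hN).2 ⟨i, x, y, hi, Or.inl ⟨rfl, Or.inr rfl⟩⟩
    refine ⟨SimpleGraph.Walk.cons h1 (SimpleGraph.Walk.cons h2 SimpleGraph.Walk.nil), ?_⟩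
    intro w hw
    simp only [SimpleGraph.Walk.support_cons, SimpleGraph.Walk.support_nil, List.mem_cons,
      List.not_mem_nil, or_false] at hw
    rcases hw with rfl | rfl | rfl
    · exact Or.inl hx
    · exact Or.inr ⟨i, x, y, hi, rfl, hx, hy⟩
    · exact Or.inl hy
  · obtain ⟨i, hi⟩ := List.mem_iff_getElem?.1 h
    have h1 : (gr (subE N L)).Adj x (N + i) := (adj_iff hN).2 ⟨i, y, x, hi, Or.inr ⟨rfl, Or.inr rfl⟩⟩
    have h2 : (gr (subE N L)).Adj (N + i) y := (adj_iff hN).2 ⟨i, y, x, hi, Or.inl ⟨rfl, Or.inl rfl⟩⟩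
    refine ⟨SimpleGraph.Walk.cons h1 (SimpleGraph.Walk.cons h2 SimpleGraph.Walk.nil), ?_⟩
    intro w hw
    simp only [SimpleGraph.Walk.support_cons, SimpleGraph.Walk.support_nil, List.mem_cons,
      List.not_mem_nil, or_false] at hw
    rcases hw with rfl | rfl | rfl
    · exact Or.inl hx
    · exact Or.inr ⟨i, y, x, hi, rfl, hy, hx⟩
    · exact Or.inl hy

/-- The hulls of two sets of branch vertices with no common vertex and no edge between them have
distance at least three. -/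
theorem far_hull {S T : Set ℕ} (hS : ∀ x ∈ S, x < N) (hT : ∀ x ∈ T, x < N)
    (hdis : ∀ x ∈ S, x ∉ T) (hno : ∀ x ∈ S, ∀ y ∈ T, (x, y) ∉ L ∧ (y, x) ∉ L) :
    ∀ u ∈ hullS N L S, ∀ v ∈ hullS N L T, 3 ≤ (gr (subE N L)).edist u v := by
  intro u hu v hv
  rw [edist_iff]
  rcases hu with hu | ⟨i, x, y, hi, rfl, hx, hy⟩
  · have hu' := hS u hu
    rcases hv with hv | ⟨j, x', y', hj, rfl, hx', hy'⟩
    · have hv' := hT v hv
      refine ⟨fun h => hdis u hu (h ▸ hv), ?_, ?_⟩
      · intro h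
        obtain ⟨k, a, b, hk, h⟩ := (adj_iff hN).1 h
        omega
      · rintro w ⟨h1, h2⟩
        obtain ⟨k, a, b, hk, h1⟩ := (adj_iff hN).1 h1
        obtain ⟨l, c, d, hl, h2⟩ := (adj_iff hN).1 h2
        rcases h1 with h1 | h1
        · omega
        rcases h2 with h2 | h2
        swap
        · omega
        have hkl : k = l := by omega
        subst hkl
        rw [hk] at hl
        obtain ⟨rfl, rfl⟩ : a = c ∧ b = d := by simpa using hl
        have hm := List.mem_of_getElem? hk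
        rcases h1.2 with rfl | rfl <;> rcases h2.2 with rfl | rfl
        · exact hdis _ hu hv
        · exact (hno _ hu _ hv).1 hm
        · exact (hno _ hu _ hv).2 hm
        · exact hdis _ hu hv
    · refine ⟨by omega, ?_, ?_⟩
      · intro h
        obtain ⟨k, a, b, hk, h⟩ := (adj_iff hN).1 h
        rcases h with h | h
        · omega
        have hkj : k = j := by omega
        subst hkj
        rw [hk] at hj
        obtain ⟨rfl, rfl⟩ : a = x' ∧ b = y' := by simpa using hj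
        rcases h.2 with rfl | rfl
        · exact hdis _ hu hx'
        · exact hdis _ hu hy'
      · rintro w ⟨h1, h2⟩
        obtain ⟨k, a, b, hk, h1⟩ := (adj_iff hN).1 h1
        obtain ⟨l, c, d, hl, h2⟩ := (adj_iff hN).1 h2
        have := lt_of_get hN hk
        have := lt_of_get hN hl
        omega
  · rcases hv with hv | ⟨j, x', y', hj, rfl, hx', hy'⟩
    · have hv' := hT v hv
      refine ⟨by omega, ?_, ?_⟩
      · intro h
        obtain ⟨k, a, b, hk, h⟩ := (adj_iff hN).1 h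
        rcases h with h | h
        swap
        · omega
        have hki : k = i := by omega
        subst hki
        rw [hk] at hi
        obtain ⟨rfl, rfl⟩ : a = x ∧ b = y := by simpa using hi
        rcases h.2 with rfl | rfl
        · exact hdis _ hx hv
        · exact hdis _ hy hv
      · rintro w ⟨h1, h2⟩
        obtain ⟨k, a, b, hk, h1⟩ := (adj_iff hN).1 h1
        obtain ⟨l, c, d, hl, h2⟩ := (adj_iff hN).1 h2
        have := lt_of_get hN hk
        have := lt_of_get hN hl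
        omega
    · refine ⟨?_, ?_, ?_⟩
      · intro h
        have hij : i = j := by omega
        subst hij
        rw [hi] at hj
        obtain ⟨rfl, rfl⟩ : x = x' ∧ y = y' := by simpa using hj
        exact hdis _ hx hx'
      · intro h
        obtain ⟨k, a, b, hk, h⟩ := (adj_iff hN).1 h
        have := lt_of_get hN hk
        omega
      · rintro w ⟨h1, h2⟩
        obtain ⟨k, a, b, hk, h1⟩ := (adj_iff hN).1 h1
        obtain ⟨l, c, d, hl, h2⟩ := (adj_iff hN).1 h2
        have hk' := lt_of_get hN hk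
        have hl' := lt_of_get hN hl
        rcases h1 with h1 | h1
        swap
        · omega
        rcases h2 with h2 | h2
        · omega
        have hki : k = i := by omega
        have hlj : l = j := by omega
        subst hki hlj
        rw [hk] at hi
        rw [hl] at hj
        obtain ⟨rfl, rfl⟩ : a = x ∧ b = y := by simpa using hi
        obtain ⟨rfl, rfl⟩ : c = x' ∧ d = y' := by simpa using hj
        rcases h1.2 with rfl | rfl <;> rcases h2.2 with rfl | rfl
        · exact hdis _ hx hx'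
        · exact hdis _ hx hy'
        · exact hdis _ hy hx'
        · exact hdis _ hy hy'

end

end Pool.Agent.Q321.MM
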